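import Pool.Agent.K6.H57.MX.Kn

/-! # The extremal functions of Beurling and Vaaler -/

set_option autoImplicit false

open MeasureTheory Set Filter Topology
open scoped ContDiff NNReal

namespace Pool.Agent.K6.H57.VL

open Pool.Agent.K6.H57.MX

noncomputable section

/-- the cardinal sine -/
def sc (x : ℝ) : ℝ := ∫ s in (0 : ℝ)..1, Real.cos (Real.pi * x * s)

lemma sc_i (x : ℝ) (a b : ℝ) : IntervalIntegrable (fun s : ℝ => Real.cos (Real.pi * x * s)) volume a b :=
  Continuous.intervalIntegrable (by fun_prop) _ _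

lemma sc_cont : Continuous sc := by
  unfold sc
  apply intervalIntegral.continuous_parametric_intervalIntegral_of_continuous'
  fun_prop

lemma sc_mul (x : ℝ) : Real.pi * x * sc x = Real.sin (Real.pi * x) := by
  unfold sc
  rcases eq_or_ne x 0 with h | h
  · rw [h]; simp
  have hpi := Real.pi_pos
  have h0 : Real.pi * x ≠ 0 := by positivity
  have := intervalIntegral.integral_comp_mul_left (a := 0) (b := 1) (fun s : ℝ => Real.cos s) h0
  rw [this, integral_cos, mul_zero, mul_one, Real.sin_zero, sub_zero, smul_eq_mul, ← mul_assoc,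
    mul_inv_cancel₀ h0, one_mul]

lemma sc_zero : sc 0 = 1 := by
  unfold sc
  simp

lemma sc_one : sc 1 = 0 := by
  have h := sc_mul 1
  rw [mul_one, Real.sin_pi] at h
  have hpi := Real.pi_pos
  rcases mul_eq_zero.1 h with h | h
  · linarith
  · exact h

lemma sc_lip (x y : ℝ) : |sc x - sc y| ≤ Real.pi * |x - y| := by
  have hpi := Real.pi_pos
  unfold sc
  rw [← intervalIntegral.integral_sub (sc_i _ _ _) (sc_i _ _ _)]
  have := intervalIntegral.norm_integral_le_of_norm_le_const (a := 0) (b := 1) (C := Real.pi * |x - y|)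
    (f := fun s : ℝ => Real.cos (Real.pi * x * s) - Real.cos (Real.pi * y * s)) (fun s hs => by
      rw [uIoc_of_le zero_le_one] at hs
      rw [Real.norm_eq_abs]
      refine (Real.abs_cos_sub_cos_le _ _).trans ?_
      have e : Real.pi * x * s - Real.pi * y * s = Real.pi * (x - y) * s := by ring
      rw [e, abs_mul, abs_mul, abs_of_pos hpi, abs_of_pos hs.1]
      have := hs.2
      exact mul_le_of_le_one_right (by positivity) this)
  rw [Real.norm_eq_abs, sub_zero, abs_one, mul_one] at this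
  exact this

/-- the denominator -/
def pp (x : ℝ) : ℝ := sc x + sc (1 - x)

lemma pp_cont : Continuous pp := by
  have := sc_cont
  unfold pp
  fun_prop

lemma pp_mul (x : ℝ) : Real.pi * (x * (1 - x)) * pp x = Real.sin (Real.pi * x) := by
  have h1 := sc_mul x
  have h2 := sc_mul (1 - x)
  have e : Real.pi * (1 - x) = Real.pi - Real.pi * x := by ring
  rw [e, Real.sin_pi_sub] at h2
  unfold pp
  linear_combination (1 - x) * h1 + x * h2

lemma pp_low {x : ℝ} (h0 : 0 ≤ x) (h1 : x ≤ 1) : 1 / 2 ≤ pp x := by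
  have hpi := Real.pi_pos
  have hpi4 : Real.pi ≤ 4 := Real.pi_le_four
  rcases eq_or_lt_of_le h0 with h | h
  · rw [← h]
    unfold pp
    rw [sub_zero, sc_zero, sc_one]
    norm_num
  rcases eq_or_lt_of_le h1 with h' | h'
  · rw [h']
    unfold pp
    rw [sub_self, sc_zero, sc_one]
    norm_num
  have h2 : 2 * (x * (1 - x)) ≤ Real.sin (Real.pi * x) := by
    rcases le_total x (1 / 2) with h3 | h3
    · have h4 := Real.mul_le_sin (x := Real.pi * x) (by positivity) (by nlinarith)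
      have e : 2 / Real.pi * (Real.pi * x) = 2 * x := by field_simp
      rw [e] at h4
      nlinarith
    · have h4 := Real.mul_le_sin (x := Real.pi * (1 - x)) (by
        have : 0 ≤ 1 - x := by linarith
        positivity) (by nlinarith)
      have e : 2 / Real.pi * (Real.pi * (1 - x)) = 2 * (1 - x) := by field_simp
      have e2 : Real.pi * (1 - x) = Real.pi - Real.pi * x := by ring
      rw [e, e2, Real.sin_pi_sub] at h4
      nlinarith
  have hx : 0 < x * (1 - x) := mul_pos h (by linarith)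
  have h3 := pp_mul x
  rw [← h3] at h2
  have h4 : 2 ≤ Real.pi * pp x := by
    by_contra hcon
    push Not at hcon
    have : Real.pi * (x * (1 - x)) * pp x < 2 * (x * (1 - x)) := by
      have e : Real.pi * (x * (1 - x)) * pp x = (Real.pi * pp x) * (x * (1 - x)) := by ring
      rw [e]
      exact mul_lt_mul_of_pos_right hcon hx
    linarith
  by_contra hcon
  push Not at hcon
  have h5 : Real.pi * pp x < Real.pi * (1 / 2) := mul_lt_mul_of_pos_left hcon hpi
  linarith

lemma pp_lip (x y : ℝ) : |pp x - pp y| ≤ 2 * Real.pi * |x - y| := by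
  unfold pp
  have h1 := sc_lip x y
  have h2 := sc_lip (1 - x) (1 - y)
  have e : 1 - x - (1 - y) = -(x - y) := by ring
  rw [e, abs_neg] at h2
  have e2 : sc x + sc (1 - x) - (sc y + sc (1 - y)) = (sc x - sc y) + (sc (1 - x) - sc (1 - y)) := by ring
  rw [e2]
  refine (abs_add_le _ _).trans ?_
  linarith

/-- Vaaler's transform on `[0, 1]` -/
def jj (x : ℝ) : ℝ := Real.cos (Real.pi * x) / pp x + x

lemma jj_zero : jj 0 = 1 := by
  unfold jj pp
  rw [mul_zero, Real.cos_zero, sub_zero, sc_zero, sc_one]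
  norm_num

lemma jj_one : jj 1 = 0 := by
  unfold jj pp
  rw [mul_one, Real.cos_pi, sub_self, sc_zero, sc_one]
  norm_num

lemma jj_bd {x : ℝ} (h0 : 0 ≤ x) (h1 : x ≤ 1) : |jj x| ≤ 3 := by
  unfold jj
  have h2 := pp_low h0 h1
  have h3 := Real.abs_cos_le_one (Real.pi * x)
  refine (abs_add_le _ _).trans ?_
  rw [abs_div, abs_of_pos (by linarith : 0 < pp x), abs_of_nonneg h0]
  have : |Real.cos (Real.pi * x)| / pp x ≤ 2 := by
    rw [div_le_iff₀ (by linarith)]
    linarith
  linarith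

lemma jj_lip {x y : ℝ} (hx0 : 0 ≤ x) (hx1 : x ≤ 1) (hy0 : 0 ≤ y) (hy1 : y ≤ 1) :
    |jj x - jj y| ≤ 50 * |x - y| := by
  have hpi := Real.pi_pos
  have hpi4 : Real.pi ≤ 4 := Real.pi_le_four
  have hx := pp_low hx0 hx1
  have hy := pp_low hy0 hy1
  have h1 := Real.abs_cos_sub_cos_le (Real.pi * x) (Real.pi * y)
  rw [← mul_sub, abs_mul, abs_of_pos hpi] at h1
  have h2 := pp_lip x y
  have h3 := Real.abs_cos_le_one (Real.pi * y)
  have px : 0 < pp x := by linarith
  have py : 0 < pp y := by linarith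
  unfold jj
  have e : Real.cos (Real.pi * x) / pp x + x - (Real.cos (Real.pi * y) / pp y + y) =
      (Real.cos (Real.pi * x) - Real.cos (Real.pi * y)) / pp x +
      Real.cos (Real.pi * y) * (pp y - pp x) / (pp x * pp y) + (x - y) := by
    field_simp
    ring
  rw [e]
  refine (abs_add_le _ _).trans ?_
  have a1 : |(Real.cos (Real.pi * x) - Real.cos (Real.pi * y)) / pp x| ≤ 8 * |x - y| := by
    rw [abs_div, abs_of_pos px, div_le_iff₀ px]
    have : 8 * |x - y| * (1 / 2) ≤ 8 * |x - y| * pp x := by gcongr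
    have h4 : Real.pi * |x - y| ≤ 4 * |x - y| := by gcongr
    linarith
  have a2 : |Real.cos (Real.pi * y) * (pp y - pp x) / (pp x * pp y)| ≤ 32 * |x - y| := by
    rw [abs_div, abs_mul, abs_of_pos (mul_pos px py), div_le_iff₀ (mul_pos px py)]
    have h5 : |pp y - pp x| ≤ 8 * |x - y| := by
      rw [abs_sub_comm]
      refine h2.trans ?_
      gcongr
      linarith
    have h6 : |Real.cos (Real.pi * y)| * |pp y - pp x| ≤ 1 * (8 * |x - y|) :=
      mul_le_mul h3 h5 (abs_nonneg _) zero_le_one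
    have h7 : (1 / 2 : ℝ) * (1 / 2) ≤ pp x * pp y := mul_le_mul hx hy (by norm_num) px.le
    have h8 : 32 * |x - y| * ((1 / 2 : ℝ) * (1 / 2)) ≤ 32 * |x - y| * (pp x * pp y) := by gcongr
    linarith
  have a3 := abs_add_le ((Real.cos (Real.pi * x) - Real.cos (Real.pi * y)) / pp x)
    (Real.cos (Real.pi * y) * (pp y - pp x) / (pp x * pp y))
  have := abs_nonneg (x - y)
  linarith

/-- Vaaler's transform -/
def Jh (ξ : ℝ) : ℝ := jj (min |ξ| 1)

lemma Jh_eq {ξ : ℝ} (h0 : 0 ≤ ξ) (h1 : ξ ≤ 1) : Jh ξ = jj ξ := by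
  unfold Jh
  rw [abs_of_nonneg h0, min_eq_left h1]

lemma Jh_zero : Jh 0 = 1 := by
  rw [Jh_eq le_rfl zero_le_one, jj_zero]

lemma Jh_out {ξ : ℝ} (h : 1 ≤ |ξ|) : Jh ξ = 0 := by
  unfold Jh
  rw [min_eq_right h, jj_one]

lemma mm0 (ξ : ℝ) : 0 ≤ min |ξ| 1 := le_min (abs_nonneg _) zero_le_one

lemma mm1 (ξ : ℝ) : min |ξ| 1 ≤ 1 := min_le_right _ _

lemma Jh_bd (ξ : ℝ) : |Jh ξ| ≤ 3 := jj_bd (mm0 ξ) (mm1 ξ)

lemma Jh_lip (ξ η : ℝ) : |Jh ξ - Jh η| ≤ 50 * |ξ - η| := by
  unfold Jh
  refine (jj_lip (mm0 ξ) (mm1 ξ) (mm0 η) (mm1 η)).trans ?_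
  have h1 : |min |ξ| 1 - min |η| 1| ≤ |ξ - η| :=
    (abs_min_sub_min_le_max |ξ| 1 |η| 1).trans (by
      rw [sub_self, abs_zero]
      exact max_le (abs_abs_sub_abs_le_abs_sub ξ η) (abs_nonneg _))
  linarith

lemma Jh_cont : Continuous Jh := by
  have h : LipschitzWith 50 Jh := by
    apply LipschitzWith.of_dist_le_mul
    intro x y
    rw [Real.dist_eq, Real.dist_eq]
    have : ((50 : ℝ≥0) : ℝ) = 50 := rfl
    rw [this]
    exact Jh_lip x y
  exact h.continuous

/-- Vaaler's function -/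
def KJ (w : ℝ) : ℝ := 2 * ∫ ξ in (0 : ℝ)..1, Jh ξ * Real.cos (2 * Real.pi * w * ξ)

lemma KJ_cont : Continuous KJ := by
  have := Jh_cont
  unfold KJ
  apply continuous_const.mul
  apply intervalIntegral.continuous_parametric_intervalIntegral_of_continuous'
  fun_prop

lemma KJ_neg (w : ℝ) : KJ (-w) = KJ w := by
  unfold KJ
  congr 1
  refine intervalIntegral.integral_congr fun ξ _ => ?_
  show Jh ξ * Real.cos (2 * Real.pi * -w * ξ) = Jh ξ * Real.cos (2 * Real.pi * w * ξ)
  rw [← Real.cos_neg]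
  congr 2
  ring

/-- half of the approximation of the sign function -/
def PJ (u : ℝ) : ℝ := ∫ w in (0 : ℝ)..u, KJ w

lemma PJ_zero : PJ 0 = 0 := by unfold PJ; simp

lemma PJ_neg (u : ℝ) : PJ (-u) = -PJ u := by
  unfold PJ
  have h1 := intervalIntegral.integral_comp_neg (a := 0) (b := u) (fun w => KJ w)
  simp only [KJ_neg, neg_zero] at h1
  rw [h1, intervalIntegral.integral_symm]

lemma PJ_eq (u : ℝ) : PJ u = 2 * ∫ ξ in (0 : ℝ)..1, Jh ξ * (u * sc (2 * u * ξ)) := by
  have hJ := Jh_cont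
  unfold PJ KJ
  rw [intervalIntegral.integral_const_mul]
  congr 1
  rw [intervalIntegral_intervalIntegral_swap]
  · refine intervalIntegral.integral_congr fun ξ _ => ?_
    show ∫ w in (0 : ℝ)..u, Jh ξ * Real.cos (2 * Real.pi * w * ξ) = Jh ξ * (u * sc (2 * u * ξ))
    rw [intervalIntegral.integral_const_mul]
    congr 1
    unfold sc
    rcases eq_or_ne u 0 with h | h
    · rw [h]; simp
    · have := intervalIntegral.integral_comp_mul_left (a := 0) (b := 1)
        (fun w : ℝ => Real.cos (2 * Real.pi * w * ξ)) h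
      rw [mul_zero, mul_one, smul_eq_mul] at this
      have e : ∫ s in (0 : ℝ)..1, Real.cos (Real.pi * (2 * u * ξ) * s) =
          ∫ s in (0 : ℝ)..1, Real.cos (2 * Real.pi * (u * s) * ξ) := by
        refine intervalIntegral.integral_congr fun s _ => ?_
        show Real.cos (Real.pi * (2 * u * ξ) * s) = Real.cos (2 * Real.pi * (u * s) * ξ)
        congr 1
        ring
      rw [e, this, ← mul_assoc, mul_inv_cancel₀ h, one_mul]
  · have hc : Continuous (Function.uncurry fun w ξ : ℝ => Jh ξ * Real.cos (2 * Real.pi * w * ξ)) := by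
      have : (Function.uncurry fun w ξ : ℝ => Jh ξ * Real.cos (2 * Real.pi * w * ξ)) = fun p : ℝ × ℝ =>
          Jh p.2 * Real.cos (2 * Real.pi * p.1 * p.2) := by
        funext p; rfl
      rw [this]
      fun_prop
    exact (hc.continuousOn.integrableOn_compact (isCompact_uIcc.prod isCompact_uIcc)).mono_set
      (Set.prod_mono uIoc_subset_uIcc uIoc_subset_uIcc)

/-- **the main part** -/
def MP (u : ℝ) : ℝ := ∫ ξ in (0 : ℝ)..1, 2 * u * sc (2 * u * ξ) * Real.cos (Real.pi * ξ) / pp ξ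

lemma pp_ne {ξ : ℝ} (h : ξ ∈ uIcc (0 : ℝ) 1) : pp ξ ≠ 0 := by
  rw [uIcc_of_le zero_le_one] at h
  have := pp_low h.1 h.2
  linarith

lemma MP_i (f : ℝ → ℝ) (hf : Continuous f) : IntervalIntegrable (fun ξ => f ξ / pp ξ) volume 0 1 := by
  apply ContinuousOn.intervalIntegrable
  exact hf.continuousOn.div pp_cont.continuousOn fun ξ hξ => pp_ne hξ

lemma Fj_u (u : ℝ) : 2 * (u * Fj u) = 4 * ∫ ξ in (0 : ℝ)..1, ξ * (u * sc (2 * u * ξ)) := by
  have hpi := Real.pi_pos
  rcases eq_or_ne u 0 with h | h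
  · rw [h]; simp
  have e1 : ∀ ξ : ℝ, ξ * (u * sc (2 * u * ξ)) = 1 / (2 * Real.pi) * Real.sin (2 * Real.pi * u * ξ) := by
    intro ξ
    have h1 := sc_mul (2 * u * ξ)
    have e : Real.pi * (2 * u * ξ) = 2 * Real.pi * u * ξ := by ring
    rw [e] at h1
    rw [← h1]
    field_simp
  simp only [e1]
  rw [intervalIntegral.integral_const_mul]
  have h2 : (2 * Real.pi * u) ≠ 0 := by positivity
  have h3 := intervalIntegral.integral_comp_mul_left (a := 0) (b := 1) (fun x : ℝ => Real.sin x) h2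
  rw [h3, integral_sin, mul_zero, mul_one, Real.cos_zero, smul_eq_mul, Fj_eq h]
  field_simp
  ring

lemma PJ_MP (u : ℝ) : 2 * PJ u = 2 * MP u + 2 * (u * Fj u) := by
  rw [Fj_u, PJ_eq]
  unfold MP
  have hs := sc_cont
  have h1 : ∫ ξ in (0 : ℝ)..1, Jh ξ * (u * sc (2 * u * ξ)) =
      ∫ ξ in (0 : ℝ)..1, (1 / 2 * (2 * u * sc (2 * u * ξ) * Real.cos (Real.pi * ξ) / pp ξ) + ξ * (u * sc (2 * u * ξ))) := by
    refine intervalIntegral.integral_congr fun ξ hξ => ?_
    have hp := pp_ne hξ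
    rw [uIcc_of_le zero_le_one] at hξ
    show Jh ξ * (u * sc (2 * u * ξ)) = _
    rw [Jh_eq hξ.1 hξ.2]
    unfold jj
    field_simp
  rw [h1, intervalIntegral.integral_add, intervalIntegral.integral_const_mul]
  · ring
  · apply IntervalIntegrable.const_mul
    exact MP_i (fun ξ => 2 * u * sc (2 * u * ξ) * Real.cos (Real.pi * ξ)) (by fun_prop)
  · exact Continuous.intervalIntegrable (by fun_prop) _ _

/-- the partial sums -/
def Sn (N : ℕ) (u : ℝ) : ℝ := Fj u + 2 * ∑ n ∈ Finset.range N, Fj (u + (n + 1))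

/-- the bracket -/
def br (N : ℕ) (u ξ : ℝ) : ℝ := Real.cos (2 * Real.pi * u * ξ) +
  2 * ∑ n ∈ Finset.range N, Real.cos (2 * Real.pi * (u + (n + 1)) * ξ)

lemma br_sin (N : ℕ) (u ξ : ℝ) : Real.sin (Real.pi * ξ) * br N u ξ =
    Real.sin (2 * Real.pi * (u + N) * ξ + Real.pi * ξ) - Real.sin (2 * Real.pi * u * ξ) * Real.cos (Real.pi * ξ) := by
  unfold br
  induction N with
  | zero =>
    simp only [Finset.range_zero, Finset.sum_empty, mul_zero, add_zero, Nat.cast_zero]
    rw [Real.sin_add]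
    ring
  | succ N ih =>
    rw [Finset.sum_range_succ]
    have e1 : 2 * Real.pi * (u + ((N + 1 : ℕ) : ℝ)) * ξ + Real.pi * ξ =
        2 * Real.pi * (u + (N + 1)) * ξ + Real.pi * ξ := by push_cast; ring
    have e2 : 2 * Real.pi * (u + N) * ξ + Real.pi * ξ = 2 * Real.pi * (u + (N + 1)) * ξ - Real.pi * ξ := by ring
    rw [e2, Real.sin_sub] at ih
    rw [e1, Real.sin_add]
    linear_combination ih

lemma Sn_eq (N : ℕ) (u : ℝ) : Sn N u = 2 * ∫ ξ in (0 : ℝ)..1, (1 - ξ) * br N u ξ := by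
  unfold Sn br
  have e : ∀ ξ : ℝ, (1 - ξ) * (Real.cos (2 * Real.pi * u * ξ) +
      2 * ∑ n ∈ Finset.range N, Real.cos (2 * Real.pi * (u + (n + 1)) * ξ)) =
      (1 - ξ) * Real.cos (2 * Real.pi * u * ξ) +
      ∑ n ∈ Finset.range N, 2 * ((1 - ξ) * Real.cos (2 * Real.pi * (u + (n + 1)) * ξ)) := by
    intro ξ
    rw [mul_add, Finset.mul_sum, Finset.mul_sum]
    congr 1
    refine Finset.sum_congr rfl fun n _ => ?_
    ring
  simp only [e]
  rw [intervalIntegral.integral_add (Continuous.intervalIntegrable (by fun_prop) _ _)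
    (Continuous.intervalIntegrable (by fun_prop) _ _), intervalIntegral.integral_finsetSum
    (fun n _ => Continuous.intervalIntegrable (by fun_prop) _ _)]
  simp only [intervalIntegral.integral_const_mul]
  unfold Fj
  rw [mul_add, Finset.mul_sum]

/-- the oscillating functions -/
def f1 (u ξ : ℝ) : ℝ := -(2 * Real.sin (Real.pi * u * ξ) * (u * sc (u * ξ))) / pp ξ

/-- the oscillating functions -/
def f2 (u ξ : ℝ) : ℝ := 2 * u * sc (2 * u * ξ) / pp ξ

lemma key (N : ℕ) (u : ℝ) {ξ : ℝ} (h0 : 0 < ξ) (h1 : ξ < 1) :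
    (1 - ξ) * br N u ξ - (1 - ξ) * br N 0 ξ + 2 * u * sc (2 * u * ξ) * Real.cos (Real.pi * ξ) / pp ξ =
      f1 u ξ * Real.sin (Real.pi * (2 * N + 1) * ξ) + f2 u ξ * Real.cos (Real.pi * (2 * N + 1) * ξ) := by
  have hpi := Real.pi_pos
  have hp : 0 < pp ξ := by
    have := pp_low h0.le h1.le
    linarith
  have h2 := pp_mul ξ
  have hx : 0 < ξ * (1 - ξ) := mul_pos h0 (by linarith)
  have hs : 0 < Real.sin (Real.pi * ξ) := by
    rw [← h2]
    positivity
  have a1 := br_sin N u ξ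
  have a2 := br_sin N 0 ξ
  rw [mul_zero, zero_mul, Real.sin_zero, zero_mul, sub_zero, zero_add] at a2
  have a3 := sc_mul (2 * u * ξ)
  have a4 := sc_mul (u * ξ)
  have b1 : Real.sin (2 * Real.pi * (u + N) * ξ + Real.pi * ξ) =
      Real.sin (Real.pi * (2 * N + 1) * ξ) * Real.cos (Real.pi * (2 * u * ξ)) +
      Real.cos (Real.pi * (2 * N + 1) * ξ) * Real.sin (Real.pi * (2 * u * ξ)) := by
    rw [← Real.sin_add]
    congr 1
    ring
  have b2 : Real.sin (2 * Real.pi * N * ξ + Real.pi * ξ) = Real.sin (Real.pi * (2 * N + 1) * ξ) := by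
    congr 1
    ring
  have b3 : Real.cos (Real.pi * (2 * u * ξ)) = 1 - 2 * Real.sin (Real.pi * (u * ξ)) ^ 2 := by
    have : Real.pi * (2 * u * ξ) = 2 * (Real.pi * (u * ξ)) := by ring
    rw [this, Real.cos_two_mul]
    have := Real.sin_sq_add_cos_sq (Real.pi * (u * ξ))
    linarith
  have b4 : Real.sin (2 * Real.pi * u * ξ) = Real.sin (Real.pi * (2 * u * ξ)) := by
    congr 1
    ring
  have b5 : Real.sin (Real.pi * u * ξ) = Real.sin (Real.pi * (u * ξ)) := by
    congr 1
    ring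
  rw [b1, b3, b4] at a1
  rw [b2] at a2
  unfold f1 f2
  rw [b5]
  -- multiply by the positive number `π ξ pp ξ`
  have hm : (Real.pi * ξ * pp ξ) ≠ 0 := by positivity
  apply mul_left_cancel₀ hm
  have c1 : Real.pi * ξ * pp ξ * ((1 - ξ) * br N u ξ) = Real.sin (Real.pi * ξ) * br N u ξ := by
    rw [← h2]; ring
  have c2 : Real.pi * ξ * pp ξ * ((1 - ξ) * br N 0 ξ) = Real.sin (Real.pi * ξ) * br N 0 ξ := by
    rw [← h2]; ring
  have c3 : Real.pi * ξ * pp ξ * (2 * u * sc (2 * u * ξ) * Real.cos (Real.pi * ξ) / pp ξ) =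
      Real.sin (Real.pi * (2 * u * ξ)) * Real.cos (Real.pi * ξ) := by
    rw [← a3]
    field_simp
  have c4 : Real.pi * ξ * pp ξ * (-(2 * Real.sin (Real.pi * (u * ξ)) * (u * sc (u * ξ))) / pp ξ *
      Real.sin (Real.pi * (2 * N + 1) * ξ)) =
      -(2 * Real.sin (Real.pi * (u * ξ)) * (Real.pi * (u * ξ) * sc (u * ξ))) * Real.sin (Real.pi * (2 * N + 1) * ξ) := by
    field_simp
  have c5 : Real.pi * ξ * pp ξ * (2 * u * sc (2 * u * ξ) / pp ξ * Real.cos (Real.pi * (2 * N + 1) * ξ)) =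
      (Real.pi * (2 * u * ξ) * sc (2 * u * ξ)) * Real.cos (Real.pi * (2 * N + 1) * ξ) := by
    field_simp
  rw [mul_add, mul_sub, c1, c2, c3, mul_add, c4, c5, a1, a2, a3, a4]
  ring

lemma RL (f : ℝ → ℝ) (hf : ContinuousOn f (Icc 0 1)) :
    Tendsto (fun N : ℕ => ∫ ξ in (0 : ℝ)..1, f ξ * Real.sin (Real.pi * (2 * N + 1) * ξ)) atTop (𝓝 0) ∧
    Tendsto (fun N : ℕ => ∫ ξ in (0 : ℝ)..1, f ξ * Real.cos (Real.pi * (2 * N + 1) * ξ)) atTop (𝓝 0) := by
  have h1 := Real.tendsto_integral_exp_smul_cocompact (fun x : ℝ => (((Ioc (0 : ℝ) 1).indicator f x : ℝ) : ℂ))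
  have h2 : Tendsto (fun N : ℕ => (-(N + 1 / 2) : ℝ)) atTop (cocompact ℝ) := by
    have h3 : Tendsto (fun N : ℕ => ((N : ℝ) + 1 / 2)) atTop atTop :=
      tendsto_atTop_add_const_right _ _ tendsto_natCast_atTop_atTop
    exact (tendsto_neg_atTop_atBot.comp h3).mono_right atBot_le_cocompact
  have h3 := h1.comp h2
  have hfi : IntegrableOn f (Ioc 0 1) := (hf.integrableOn_Icc).mono_set Ioc_subset_Icc_self
  have h4 : ∀ N : ℕ, (∫ v : ℝ, Real.fourierChar (-(v * (-(N + 1 / 2)))) • (((Ioc (0 : ℝ) 1).indicator f v : ℝ) : ℂ)) =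
      ∫ ξ in Ioc (0 : ℝ) 1, ((f ξ : ℝ) : ℂ) * Complex.exp (((Real.pi * (2 * N + 1) * ξ : ℝ) : ℂ) * Complex.I) := by
    intro N
    rw [← integral_indicator measurableSet_Ioc]
    refine integral_congr_ae (ae_of_all _ fun v => ?_)
    by_cases hv : v ∈ Ioc (0 : ℝ) 1
    · simp only [indicator_of_mem hv]
      rw [Circle.smul_def, Real.fourierChar_apply, smul_eq_mul, mul_comm]
      congr 2
      push_cast
      ring
    · simp only [indicator_of_notMem hv]
      simp
  have hint : ∀ N : ℕ, IntegrableOn (fun ξ : ℝ => ((f ξ : ℝ) : ℂ) *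
      Complex.exp (((Real.pi * (2 * N + 1) * ξ : ℝ) : ℂ) * Complex.I)) (Ioc 0 1) := by
    intro N
    apply (hfi.ofReal (𝕜 := ℂ)).mul_bdd (c := 1)
    · exact (Continuous.aestronglyMeasurable (by fun_prop))
    · exact ae_of_all _ fun x => (Complex.norm_exp_ofReal_mul_I _).le
  constructor
  · have h5 := (Complex.continuous_im.tendsto 0).comp h3
    rw [Complex.zero_im] at h5
    refine h5.congr fun N => ?_
    simp only [Function.comp_apply]
    rw [h4, intervalIntegral.integral_of_le zero_le_one]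
    have := Complex.imCLM.integral_comp_comm (hint N)
    simp only [Complex.imCLM_apply] at this
    rw [← this]
    refine integral_congr_ae (ae_of_all _ fun ξ => ?_)
    simp only
    rw [Complex.im_ofReal_mul, Complex.exp_ofReal_mul_I_im]
  · have h5 := (Complex.continuous_re.tendsto 0).comp h3
    rw [Complex.zero_re] at h5
    refine h5.congr fun N => ?_
    simp only [Function.comp_apply]
    rw [h4, intervalIntegral.integral_of_le zero_le_one]
    have := Complex.reCLM.integral_comp_comm (hint N)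
    simp only [Complex.reCLM_apply] at this
    rw [← this]
    refine integral_congr_ae (ae_of_all _ fun ξ => ?_)
    simp only
    rw [Complex.re_ofReal_mul, Complex.exp_ofReal_mul_I_re]

lemma Fj_int (n : ℕ) : Fj ((n : ℝ) + 1) = 0 := by
  have h : ((n : ℝ) + 1) ≠ 0 := by positivity
  rw [Fj_eq h]
  have e : 2 * Real.pi * ((n : ℝ) + 1) = ((n + 1 : ℕ) : ℝ) * (2 * Real.pi) := by push_cast; ring
  rw [e, Real.cos_nat_mul_two_pi]
  simp

lemma Sn_zero (N : ℕ) : Sn N 0 = 1 := by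
  unfold Sn
  rw [Fj_zero]
  simp only [zero_add, Fj_int, Finset.sum_const_zero]
  norm_num

/-- **the limit of the partial sums** -/
lemma Sn_lim (u : ℝ) : Tendsto (fun N : ℕ => Sn N u) atTop (𝓝 (1 - 2 * PJ u + 2 * (u * Fj u))) := by
  have hs := sc_cont
  have c1 : ContinuousOn (f1 u) (Icc 0 1) := by
    unfold f1
    apply ContinuousOn.div (Continuous.continuousOn (by fun_prop)) pp_cont.continuousOn
    intro ξ hξ
    exact pp_ne (by rw [uIcc_of_le zero_le_one]; exact hξ)
  have c2 : ContinuousOn (f2 u) (Icc 0 1) := by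
    unfold f2
    apply ContinuousOn.div (Continuous.continuousOn (by fun_prop)) pp_cont.continuousOn
    intro ξ hξ
    exact pp_ne (by rw [uIcc_of_le zero_le_one]; exact hξ)
  have r1 := (RL (f1 u) c1).1
  have r2 := (RL (f2 u) c2).2
  have hbc : ∀ N u, Continuous (br N u) := by
    intro N u
    unfold br
    fun_prop
  have h1 : ∀ N : ℕ, Sn N u = (1 - 2 * PJ u + 2 * (u * Fj u)) +
      2 * ((∫ ξ in (0 : ℝ)..1, f1 u ξ * Real.sin (Real.pi * (2 * N + 1) * ξ)) +
      ∫ ξ in (0 : ℝ)..1, f2 u ξ * Real.cos (Real.pi * (2 * N + 1) * ξ)) := by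
    intro N
    have i1 : IntervalIntegrable (fun ξ => f1 u ξ * Real.sin (Real.pi * (2 * N + 1) * ξ)) volume 0 1 := by
      apply ContinuousOn.intervalIntegrable
      rw [uIcc_of_le zero_le_one]
      exact c1.mul (Continuous.continuousOn (by fun_prop))
    have i2 : IntervalIntegrable (fun ξ => f2 u ξ * Real.cos (Real.pi * (2 * N + 1) * ξ)) volume 0 1 := by
      apply ContinuousOn.intervalIntegrable
      rw [uIcc_of_le zero_le_one]
      exact c2.mul (Continuous.continuousOn (by fun_prop))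
    have hb1 := hbc N u
    have hb0 := hbc N 0
    have j1 : IntervalIntegrable (fun ξ => (1 - ξ) * br N u ξ) volume 0 1 :=
      Continuous.intervalIntegrable (by fun_prop) _ _
    have j2 : IntervalIntegrable (fun ξ => (1 - ξ) * br N 0 ξ) volume 0 1 :=
      Continuous.intervalIntegrable (by fun_prop) _ _
    have j3 := MP_i (fun ξ => 2 * u * sc (2 * u * ξ) * Real.cos (Real.pi * ξ)) (by fun_prop)
    rw [← intervalIntegral.integral_add i1 i2]
    have e1 : ∫ ξ in (0 : ℝ)..1, (f1 u ξ * Real.sin (Real.pi * (2 * N + 1) * ξ) +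
        f2 u ξ * Real.cos (Real.pi * (2 * N + 1) * ξ)) = ∫ ξ in (0 : ℝ)..1, ((1 - ξ) * br N u ξ -
        (1 - ξ) * br N 0 ξ + 2 * u * sc (2 * u * ξ) * Real.cos (Real.pi * ξ) / pp ξ) := by
      apply intervalIntegral.integral_congr_Ioo_of_le zero_le_one
      intro ξ hξ
      exact (key N u hξ.1 hξ.2).symm
    rw [e1, intervalIntegral.integral_add (j1.sub j2) j3, intervalIntegral.integral_sub j1 j2]
    have e2 := Sn_eq N u
    have e3 := Sn_eq N 0
    rw [Sn_zero] at e3
    have e4 := PJ_MP u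
    unfold MP at e4
    linear_combination e2 - e3 + e4
  have h2 : Tendsto (fun N : ℕ => (1 - 2 * PJ u + 2 * (u * Fj u)) +
      2 * ((∫ ξ in (0 : ℝ)..1, f1 u ξ * Real.sin (Real.pi * (2 * N + 1) * ξ)) +
      ∫ ξ in (0 : ℝ)..1, f2 u ξ * Real.cos (Real.pi * (2 * N + 1) * ξ))) atTop
      (𝓝 ((1 - 2 * PJ u + 2 * (u * Fj u)) + 2 * (0 + 0))) :=
    tendsto_const_nhds.add ((r1.add r2).const_mul 2)
  rw [add_zero, mul_zero, add_zero] at h2
  exact h2.congr fun N => (h1 N).symm

lemma Fj_shift {u : ℝ} (hu : 0 < u) (n : ℕ) : Fj (u + (n + 1)) = Fj u * (u ^ 2 / (u + (n + 1)) ^ 2) := by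
  have hpi := Real.pi_pos
  have h : (0 : ℝ) < u + (n + 1) := by positivity
  rw [Fj_eq h.ne', Fj_eq hu.ne']
  have e : 2 * Real.pi * (u + (n + 1)) = 2 * Real.pi * u + ((n + 1 : ℕ) : ℝ) * (2 * Real.pi) := by push_cast; ring
  rw [e, Real.cos_add_nat_mul_two_pi]
  field_simp

/-- **Vaaler's inequality** -/
theorem vaaler {u : ℝ} (hu : 0 < u) : |2 * PJ u - 1| ≤ Fj u := by
  have hF := Fj_nonneg u
  have h1 : ∀ N : ℕ, Sn N u = Fj u * (1 + 2 * u ^ 2 * ∑ n ∈ Finset.range N, 1 / (u + (n + 1)) ^ 2) := by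
    intro N
    unfold Sn
    simp only [Fj_shift hu]
    rw [← Finset.mul_sum]
    have : ∑ n ∈ Finset.range N, u ^ 2 / (u + (n + 1)) ^ 2 = u ^ 2 * ∑ n ∈ Finset.range N, 1 / (u + (n + 1)) ^ 2 := by
      rw [Finset.mul_sum]
      refine Finset.sum_congr rfl fun n _ => ?_
      ring
    rw [this]
    ring
  have up : ∀ N : ℕ, ∑ n ∈ Finset.range N, 1 / (u + (n + 1)) ^ 2 ≤ 1 / u - 1 / (u + N) := by
    intro N
    induction N with
    | zero => simp
    | succ N ih =>
      rw [Finset.sum_range_succ]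
      have hN : (0 : ℝ) < u + N := by positivity
      have hN1 : (0 : ℝ) < u + (N + 1) := by positivity
      have : 1 / (u + (N + 1)) ^ 2 ≤ 1 / (u + N) - 1 / (u + ((N + 1 : ℕ) : ℝ)) := by
        push_cast
        rw [div_sub_div _ _ hN.ne' hN1.ne', div_le_div_iff₀ (by positivity) (by positivity)]
        nlinarith
      linarith
  have lo : ∀ N : ℕ, 1 / (u + 1) - 1 / (u + 1 + N) ≤ ∑ n ∈ Finset.range N, 1 / (u + (n + 1)) ^ 2 := by
    intro N
    induction N with
    | zero => simp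
    | succ N ih =>
      rw [Finset.sum_range_succ]
      have hN : (0 : ℝ) < u + 1 + N := by positivity
      have hN1 : (0 : ℝ) < u + 1 + (N + 1) := by positivity
      have : 1 / (u + 1 + N) - 1 / (u + 1 + ((N + 1 : ℕ) : ℝ)) ≤ 1 / (u + (N + 1)) ^ 2 := by
        push_cast
        have e : u + ((N : ℝ) + 1) = u + 1 + N := by ring
        rw [e, div_sub_div _ _ hN.ne' hN1.ne', div_le_div_iff₀ (by positivity) (by positivity)]
        nlinarith
      linarith
  have hl := Sn_lim u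
  have U : 1 - 2 * PJ u + 2 * (u * Fj u) ≤ Fj u * (1 + 2 * u) := by
    apply le_of_tendsto' hl
    intro N
    rw [h1]
    apply mul_le_mul_of_nonneg_left _ hF
    have h2 := up N
    have h3 : (0 : ℝ) ≤ 1 / (u + N) := by positivity
    have h4 : 2 * u ^ 2 * ∑ n ∈ Finset.range N, 1 / (u + (n + 1)) ^ 2 ≤ 2 * u ^ 2 * (1 / u) := by
      apply mul_le_mul_of_nonneg_left (by linarith) (by positivity)
    have e : 2 * u ^ 2 * (1 / u) = 2 * u := by field_simp
    linarith
  have L : Fj u * (1 + 2 * u ^ 2 * (1 / (u + 1))) ≤ 1 - 2 * PJ u + 2 * (u * Fj u) := by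
    have hl2 : Tendsto (fun N : ℕ => Fj u * (1 + 2 * u ^ 2 * (1 / (u + 1) - 1 / (u + 1 + N)))) atTop
        (𝓝 (Fj u * (1 + 2 * u ^ 2 * (1 / (u + 1) - 0)))) := by
      apply Tendsto.const_mul
      apply Tendsto.const_add
      apply Tendsto.const_mul
      apply Tendsto.const_sub
      have : Tendsto (fun N : ℕ => u + 1 + (N : ℝ)) atTop atTop :=
        tendsto_atTop_add_const_left _ _ tendsto_natCast_atTop_atTop
      exact this.const_div_atTop 1
    rw [sub_zero] at hl2
    refine le_of_tendsto_of_tendsto' hl2 hl fun N => ?_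
    rw [h1]
    apply mul_le_mul_of_nonneg_left _ hF
    have := lo N
    have h4 : 2 * u ^ 2 * (1 / (u + 1) - 1 / (u + 1 + N)) ≤ 2 * u ^ 2 * ∑ n ∈ Finset.range N, 1 / (u + (n + 1)) ^ 2 :=
      mul_le_mul_of_nonneg_left this (by positivity)
    linarith
  rw [abs_le]
  constructor
  · nlinarith
  · have h5 : -1 ≤ 1 + 2 * u ^ 2 * (1 / (u + 1)) - 2 * u := by
      have e : 1 + 2 * u ^ 2 * (1 / (u + 1)) - 2 * u + 1 = 2 / (u + 1) := by
        field_simp
        ring
      have : 0 < 2 / (u + 1) := by positivity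
      linarith
    have h6 : Fj u * (-1) ≤ Fj u * (1 + 2 * u ^ 2 * (1 / (u + 1)) - 2 * u) := mul_le_mul_of_nonneg_left h5 hF
    nlinarith

end

end Pool.Agent.K6.H57.VL
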