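import Pool.Agent.K6.H57.VL.Va

/-! # Majorants and minorants of the indicator function of an interval -/

set_option autoImplicit false

open MeasureTheory Set Filter Topology
open scoped ContDiff NNReal

namespace Pool.Agent.K6.H57.VL

open Pool.Agent.K6.H57.MX

noncomputable section

/-- the transform of the Fejer kernel -/
def Gf (s ξ : ℝ) : ℂ := ((s / 2 * max 0 (1 - |s * ξ|) : ℝ) : ℂ)

lemma Gf_Bd {s : ℝ} (hs : 0 < s) : Bd (1 / s) (s / 2) (s / 2 * s) (Gf s) := by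
  refine ⟨fun ξ => ?_, fun ξ η => ?_, fun ξ hξ => ?_⟩
  · unfold Gf
    rw [Complex.norm_real, Real.norm_of_nonneg (mul_nonneg (by positivity) (le_max_left _ _))]
    have : max 0 (1 - |s * ξ|) ≤ 1 := by
      apply max_le (by norm_num)
      linarith [abs_nonneg (s * ξ)]
    exact mul_le_of_le_one_right (by positivity) this
  · unfold Gf
    rw [← Complex.ofReal_sub, Complex.norm_real, Real.norm_eq_abs, ← mul_sub, abs_mul,
      abs_of_pos (by positivity : 0 < s / 2), mul_assoc]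
    apply mul_le_mul_of_nonneg_left _ (by positivity)
    rw [max_comm 0 (1 - |s * ξ|), max_comm 0 (1 - |s * η|)]
    refine (abs_max_sub_max_le_abs (1 - |s * ξ|) (1 - |s * η|) 0).trans ?_
    have e : 1 - |s * ξ| - (1 - |s * η|) = |s * η| - |s * ξ| := by ring
    rw [e]
    refine (abs_abs_sub_abs_le_abs_sub _ _).trans ?_
    rw [← mul_sub, abs_mul, abs_of_pos hs, abs_sub_comm]
  · unfold Gf
    rw [max_eq_left, mul_zero, Complex.ofReal_zero]
    rw [abs_mul, abs_of_pos hs]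
    have : 1 ≤ s * |ξ| := by
      calc 1 = s * (1 / s) := by field_simp
        _ ≤ _ := mul_le_mul_of_nonneg_left hξ hs.le
    linarith

/-- the transform of the smoothed window -/
def GJ (s v ξ : ℝ) : ℂ := ((Jh (s * ξ) : ℝ) : ℂ) * Ev v ξ

lemma GJ_Bd {s v : ℝ} (hs : 0 < s) (hv : 0 ≤ v) : ∃ Λ : ℝ, Bd (1 / s) (3 * v) Λ (GJ s v) := by
  have hpi := Real.pi_pos
  refine ⟨50 * s * v + 3 * (2 * Real.pi * v ^ 2), ⟨fun ξ => ?_, fun ξ η => ?_, fun ξ hξ => ?_⟩⟩
  · unfold GJ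
    rw [norm_mul, Complex.norm_real, Real.norm_eq_abs]
    exact mul_le_mul (Jh_bd _) (Ev_bd hv ξ) (norm_nonneg _) (by norm_num)
  · unfold GJ
    have e : ((Jh (s * ξ) : ℝ) : ℂ) * Ev v ξ - ((Jh (s * η) : ℝ) : ℂ) * Ev v η =
        ((Jh (s * ξ) - Jh (s * η) : ℝ) : ℂ) * Ev v ξ + ((Jh (s * η) : ℝ) : ℂ) * (Ev v ξ - Ev v η) := by
      push_cast
      ring
    rw [e]
    refine (norm_add_le _ _).trans ?_
    rw [norm_mul, norm_mul, Complex.norm_real, Complex.norm_real, Real.norm_eq_abs, Real.norm_eq_abs, add_mul]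
    apply add_le_add
    · have h1 := Jh_lip (s * ξ) (s * η)
      rw [← mul_sub, abs_mul, abs_of_pos hs] at h1
      calc _ ≤ 50 * (s * |ξ - η|) * v := mul_le_mul h1 (Ev_bd hv ξ) (norm_nonneg _) (by positivity)
        _ = _ := by ring
    · calc _ ≤ 3 * (2 * Real.pi * v ^ 2 * |ξ - η|) :=
            mul_le_mul (Jh_bd _) (Ev_lip hv ξ η) (norm_nonneg _) (by norm_num)
        _ = _ := by ring
  · unfold GJ
    rw [Jh_out, Complex.ofReal_zero, zero_mul]
    rw [abs_mul, abs_of_pos hs]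
    calc 1 = s * (1 / s) := by field_simp
      _ ≤ _ := mul_le_mul_of_nonneg_left hξ hs.le

/-- the transforms of the majorant (`σ = 1`) and of the minorant (`σ = -1`) -/
def Gb (σ s v ξ : ℝ) : ℂ := GJ s v ξ + (σ : ℂ) * (Gf s ξ + Sh v (Gf s) ξ)

lemma Gb_Bd {σ s v : ℝ} (hs : 0 < s) (hv : 0 ≤ v) : ∃ M Λ : ℝ, Bd (1 / s) M Λ (Gb σ s v) := by
  obtain ⟨Λ, h1⟩ := GJ_Bd hs hv
  have h2 := Gf_Bd hs
  have h3 := h2.sh v
  exact ⟨_, _, h1.add ((h2.add h3).smul (σ : ℂ))⟩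

lemma fG_i {κ M Λ : ℝ} {G : ℝ → ℂ} (h : Bd κ M Λ G) (x : ℝ) :
    IntervalIntegrable (fun ξ : ℝ => G ξ * Complex.exp (((2 * Real.pi * x * ξ : ℝ) : ℂ) * Complex.I)) volume 0 1 := by
  have := h.cont
  exact Continuous.intervalIntegrable (by fun_prop) _ _

lemma fG_add {κ M Λ κ' M' Λ' : ℝ} {G G' : ℝ → ℂ} (h : Bd κ M Λ G) (h' : Bd κ' M' Λ' G') (x : ℝ) :
    fG (fun ξ => G ξ + G' ξ) x = fG G x + fG G' x := by
  unfold fG
  have e : ∀ ξ : ℝ, (G ξ + G' ξ) * Complex.exp (((2 * Real.pi * x * ξ : ℝ) : ℂ) * Complex.I) =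
      G ξ * Complex.exp (((2 * Real.pi * x * ξ : ℝ) : ℂ) * Complex.I) +
      G' ξ * Complex.exp (((2 * Real.pi * x * ξ : ℝ) : ℂ) * Complex.I) := fun ξ => by ring
  simp only [e]
  rw [intervalIntegral.integral_add (fG_i h x) (fG_i h' x), Complex.add_re]
  ring

lemma fG_smul (G : ℝ → ℂ) (σ x : ℝ) : fG (fun ξ => (σ : ℂ) * G ξ) x = σ * fG G x := by
  unfold fG
  have e : ∀ ξ : ℝ, (σ : ℂ) * G ξ * Complex.exp (((2 * Real.pi * x * ξ : ℝ) : ℂ) * Complex.I) =
      (σ : ℂ) * (G ξ * Complex.exp (((2 * Real.pi * x * ξ : ℝ) : ℂ) * Complex.I)) := fun ξ => by ring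
  simp only [e]
  rw [intervalIntegral.integral_const_mul, Complex.re_ofReal_mul]
  ring

lemma fG_Gf {s : ℝ} (hs : 1 ≤ s) (x : ℝ) : fG (Gf s) x = 1 / 2 * Fj (x / s) := by
  have hs0 : 0 < s := by linarith
  have hsc : s ≠ 0 := hs0.ne'
  obtain ⟨F, hF⟩ : ∃ F : ℝ → ℝ, F = fun η => max 0 (1 - |η|) * Real.cos (2 * Real.pi * (x / s) * η) := ⟨_, rfl⟩
  have hFc : Continuous F := by rw [hF]; fun_prop
  have e1 : (∫ ξ in (0 : ℝ)..1, Gf s ξ * Complex.exp (((2 * Real.pi * x * ξ : ℝ) : ℂ) * Complex.I)).re =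
      ∫ ξ in (0 : ℝ)..1, s / 2 * F (s * ξ) := by
    have hcr := Complex.reCLM.intervalIntegral_comp_comm (a := 0) (b := 1) (μ := volume)
      (f := fun ξ : ℝ => Gf s ξ * Complex.exp (((2 * Real.pi * x * ξ : ℝ) : ℂ) * Complex.I))
      (Continuous.intervalIntegrable (by
        have := (Gf_Bd hs0).cont
        fun_prop) _ _)
    have hcr2 : (∫ ξ in (0 : ℝ)..1, Gf s ξ * Complex.exp (((2 * Real.pi * x * ξ : ℝ) : ℂ) * Complex.I)).re =
      ∫ ξ in (0 : ℝ)..1, (Gf s ξ * Complex.exp (((2 * Real.pi * x * ξ : ℝ) : ℂ) * Complex.I)).re := hcr.symm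
    rw [hcr2]
    refine intervalIntegral.integral_congr fun ξ _ => ?_
    show (Gf s ξ * Complex.exp (((2 * Real.pi * x * ξ : ℝ) : ℂ) * Complex.I)).re = s / 2 * F (s * ξ)
    unfold Gf
    rw [Complex.re_ofReal_mul, Complex.exp_ofReal_mul_I_re, hF]
    have e : 2 * Real.pi * (x / s) * (s * ξ) = 2 * Real.pi * x * ξ := by field_simp
    show _ = s / 2 * (max 0 (1 - |s * ξ|) * Real.cos (2 * Real.pi * (x / s) * (s * ξ)))
    rw [e]
    ring
  have e2 : ∫ ξ in (0 : ℝ)..1, s / 2 * F (s * ξ) = 1 / 2 * ∫ η in (0 : ℝ)..s, F η := by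
    rw [intervalIntegral.integral_const_mul, intervalIntegral.integral_comp_mul_left F hsc, smul_eq_mul,
      mul_zero, mul_one]
    field_simp
  have e3 : ∫ η in (0 : ℝ)..s, F η = ∫ η in (0 : ℝ)..1, F η := by
    rw [← intervalIntegral.integral_add_adjacent_intervals (hFc.intervalIntegrable 0 1)
      (hFc.intervalIntegrable 1 s)]
    have : ∫ η in (1 : ℝ)..s, F η = 0 := by
      rw [intervalIntegral.integral_congr (g := fun _ => (0 : ℝ)), intervalIntegral.integral_zero]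
      intro η hη
      rw [uIcc_of_le hs] at hη
      show F η = 0
      rw [hF]
      show max 0 (1 - |η|) * _ = 0
      rw [max_eq_left, zero_mul]
      rw [abs_of_pos (by linarith [hη.1])]
      linarith [hη.1]
    rw [this, add_zero]
  have e4 : 2 * ∫ η in (0 : ℝ)..1, F η = Fj (x / s) := by
    unfold Fj
    congr 1
    refine intervalIntegral.integral_congr fun η hη => ?_
    rw [uIcc_of_le zero_le_one] at hη
    show F η = (1 - η) * Real.cos (2 * Real.pi * (x / s) * η)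
    rw [hF]
    show max 0 (1 - |η|) * Real.cos (2 * Real.pi * (x / s) * η) = _
    rw [abs_of_nonneg hη.1, max_eq_right (by linarith [hη.2])]
  unfold fG
  rw [e1, e2, e3, ← e4]
  ring

lemma KJ_i (a b : ℝ) : IntervalIntegrable KJ volume a b := KJ_cont.intervalIntegrable a b

/-- the smoothed window is band limited -/
lemma fG_GJ {s : ℝ} (hs : 1 ≤ s) {v : ℝ} (x : ℝ) :
    fG (GJ s v) x = PJ (x / s) - PJ ((x - v) / s) := by
  have hs0 : 0 < s := by linarith
  have hsc : s ≠ 0 := hs0.ne'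
  have hchi := Jh_cont
  have e0 : ∀ ξ : ℝ, GJ s v ξ * Complex.exp (((2 * Real.pi * x * ξ : ℝ) : ℂ) * Complex.I) =
      ∫ y in (0 : ℝ)..v, ((Jh (s * ξ) : ℝ) : ℂ) * Complex.exp (((2 * Real.pi * (x - y) * ξ : ℝ) : ℂ) * Complex.I) := by
    intro ξ
    unfold GJ Ev
    rw [mul_assoc, ← intervalIntegral.integral_mul_const, ← intervalIntegral.integral_const_mul]
    refine intervalIntegral.integral_congr fun y _ => ?_
    show ((Jh (s * ξ) : ℝ) : ℂ) * (Complex.exp (((-(2 * Real.pi * y * ξ) : ℝ) : ℂ) * Complex.I) *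
      Complex.exp (((2 * Real.pi * x * ξ : ℝ) : ℂ) * Complex.I)) = _
    rw [← Complex.exp_add]
    congr 2
    push_cast
    ring
  have e1 : fG (GJ s v) x = ∫ y in (0 : ℝ)..v, 2 * (∫ ξ in (0 : ℝ)..1, ((Jh (s * ξ) : ℝ) : ℂ) *
      Complex.exp (((2 * Real.pi * (x - y) * ξ : ℝ) : ℂ) * Complex.I)).re := by
    unfold fG
    simp only [e0]
    rw [intervalIntegral_intervalIntegral_swap]
    · rw [intervalIntegral.integral_const_mul]
      congr 1
      have := Complex.reCLM.intervalIntegral_comp_comm (a := 0) (b := v) (μ := volume)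
        (f := fun y : ℝ => ∫ ξ in (0 : ℝ)..1, ((Jh (s * ξ) : ℝ) : ℂ) *
          Complex.exp (((2 * Real.pi * (x - y) * ξ : ℝ) : ℂ) * Complex.I))
        (Continuous.intervalIntegrable (by
          apply intervalIntegral.continuous_parametric_intervalIntegral_of_continuous' (by fun_prop)) _ _)
      exact this.symm
    · have hc : Continuous (Function.uncurry fun ξ y : ℝ => ((Jh (s * ξ) : ℝ) : ℂ) *
          Complex.exp (((2 * Real.pi * (x - y) * ξ : ℝ) : ℂ) * Complex.I)) := by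
        have : (Function.uncurry fun ξ y : ℝ => ((Jh (s * ξ) : ℝ) : ℂ) *
          Complex.exp (((2 * Real.pi * (x - y) * ξ : ℝ) : ℂ) * Complex.I)) = fun p : ℝ × ℝ =>
          ((Jh (s * p.1) : ℝ) : ℂ) * Complex.exp (((2 * Real.pi * (x - p.2) * p.1 : ℝ) : ℂ) * Complex.I) := by
          funext p; rfl
        rw [this]
        fun_prop
      exact (hc.continuousOn.integrableOn_compact (isCompact_uIcc.prod isCompact_uIcc)).mono_set
        (Set.prod_mono uIoc_subset_uIcc uIoc_subset_uIcc)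
  have e2 : ∀ y : ℝ, 2 * (∫ ξ in (0 : ℝ)..1, ((Jh (s * ξ) : ℝ) : ℂ) *
      Complex.exp (((2 * Real.pi * (x - y) * ξ : ℝ) : ℂ) * Complex.I)).re = s⁻¹ * KJ (x / s - y / s) := by
    intro y
    have hcr := Complex.reCLM.intervalIntegral_comp_comm (a := 0) (b := 1) (μ := volume)
      (f := fun ξ : ℝ => ((Jh (s * ξ) : ℝ) : ℂ) * Complex.exp (((2 * Real.pi * (x - y) * ξ : ℝ) : ℂ) * Complex.I))
      (Continuous.intervalIntegrable (by fun_prop) _ _)
    have hcr2 : (∫ ξ in (0 : ℝ)..1, ((Jh (s * ξ) : ℝ) : ℂ) *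
      Complex.exp (((2 * Real.pi * (x - y) * ξ : ℝ) : ℂ) * Complex.I)).re =
      ∫ ξ in (0 : ℝ)..1, (((Jh (s * ξ) : ℝ) : ℂ) *
      Complex.exp (((2 * Real.pi * (x - y) * ξ : ℝ) : ℂ) * Complex.I)).re := hcr.symm
    obtain ⟨F, hF⟩ : ∃ F : ℝ → ℝ, F = fun η => Jh η * Real.cos (2 * Real.pi * (x / s - y / s) * η) := ⟨_, rfl⟩
    have hFc : Continuous F := by rw [hF]; fun_prop
    have e3 : ∫ ξ in (0 : ℝ)..1, (((Jh (s * ξ) : ℝ) : ℂ) *
        Complex.exp (((2 * Real.pi * (x - y) * ξ : ℝ) : ℂ) * Complex.I)).re = ∫ ξ in (0 : ℝ)..1, F (s * ξ) := by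
      refine intervalIntegral.integral_congr fun ξ _ => ?_
      show (((Jh (s * ξ) : ℝ) : ℂ) * Complex.exp (((2 * Real.pi * (x - y) * ξ : ℝ) : ℂ) * Complex.I)).re = F (s * ξ)
      rw [Complex.re_ofReal_mul, Complex.exp_ofReal_mul_I_re, hF]
      show _ = Jh (s * ξ) * Real.cos (2 * Real.pi * (x / s - y / s) * (s * ξ))
      congr 2
      field_simp
    rw [hcr2, e3, intervalIntegral.integral_comp_mul_left F hsc, mul_zero, mul_one, smul_eq_mul]
    have e4 : ∫ η in (0 : ℝ)..s, F η = ∫ η in (0 : ℝ)..1, F η := by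
      rw [← intervalIntegral.integral_add_adjacent_intervals (hFc.intervalIntegrable 0 1)
        (hFc.intervalIntegrable 1 s)]
      have : ∫ η in (1 : ℝ)..s, F η = 0 := by
        rw [intervalIntegral.integral_congr (g := fun _ => (0 : ℝ)), intervalIntegral.integral_zero]
        intro η hη
        rw [uIcc_of_le hs] at hη
        show F η = 0
        rw [hF]
        show Jh η * _ = 0
        rw [Jh_out, zero_mul]
        rw [abs_of_pos (by linarith [hη.1])]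
        exact hη.1
      rw [this, add_zero]
    rw [e4, hF]
    unfold KJ
    ring
  rw [e1]
  simp only [e2]
  have h5 : ∫ y in (0 : ℝ)..v, s⁻¹ * KJ (x / s - y / s) = ∫ w in ((x - v) / s)..(x / s), KJ w := by
    rw [intervalIntegral.integral_const_mul, intervalIntegral.integral_comp_sub_div KJ hsc, smul_eq_mul,
      ← mul_assoc, inv_mul_cancel₀ hsc, one_mul]
    congr 1
    · rw [sub_div]
    · rw [zero_div, sub_zero]
  rw [h5]
  unfold PJ
  rw [intervalIntegral.integral_interval_sub_left (KJ_i _ _) (KJ_i _ _)]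

lemma fG_Gb {σ s v : ℝ} (hs : 1 ≤ s) (hv : 0 ≤ v) (x : ℝ) :
    fG (Gb σ s v) x = PJ (x / s) - PJ ((x - v) / s) + σ / 2 * (Fj (x / s) + Fj ((x - v) / s)) := by
  have hs0 : 0 < s := by linarith
  obtain ⟨Λ, h1⟩ := GJ_Bd hs0 hv
  have h2 := Gf_Bd hs0
  have h3 := h2.sh v
  have h4 := h2.add h3
  have e : Gb σ s v = fun ξ => GJ s v ξ + (σ : ℂ) * (Gf s ξ + Sh v (Gf s) ξ) := rfl
  rw [e, fG_add h1 (h4.smul (σ : ℂ)), fG_smul, fG_add h2 h3, fG_Sh, fG_GJ hs, fG_Gf hs, fG_Gf hs]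
  ring

lemma Gb_zero (σ s v : ℝ) : (Gb σ s v 0).re = v + σ * s := by
  unfold Gb GJ Sh Gf
  have e1 : Ev v 0 = (v : ℂ) := by
    unfold Ev
    simp
  rw [mul_zero, Jh_zero, e1]
  simp

/-- the sign -/
lemma PJ_pos {u : ℝ} (hu : 0 < u) : |2 * PJ u - 1| ≤ Fj u := vaaler hu

lemma Fj_neg (u : ℝ) : Fj (-u) = Fj u := by
  unfold Fj
  congr 1
  refine intervalIntegral.integral_congr fun ξ _ => ?_
  show (1 - ξ) * Real.cos (2 * Real.pi * -u * ξ) = (1 - ξ) * Real.cos (2 * Real.pi * u * ξ)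
  rw [← Real.cos_neg]
  congr 2
  ring

lemma PJ_npos {u : ℝ} (hu : u < 0) : |2 * PJ u + 1| ≤ Fj u := by
  have h := vaaler (u := -u) (by linarith)
  rw [PJ_neg, Fj_neg] at h
  rw [← abs_neg]
  have e : -(2 * PJ u + 1) = 2 * -PJ u - 1 := by ring
  rwa [e]

/-- lower bounds for the majorant -/
lemma maj {s v x : ℝ} (hs : 1 ≤ s) (hv : 0 ≤ v) :
    (if 0 ≤ x ∧ x ≤ v then (1 : ℝ) else 0) ≤ fG (Gb 1 s v) x := by
  have hs0 : 0 < s := by linarith
  rw [fG_Gb hs hv]
  have hx : ∀ y : ℝ, (-1 ≤ 2 * PJ (y / s) + Fj (y / s)) ∧ (2 * PJ (y / s) - Fj (y / s) ≤ 1) ∧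
      (0 ≤ y → 1 ≤ 2 * PJ (y / s) + Fj (y / s)) ∧ (y ≤ 0 → 2 * PJ (y / s) - Fj (y / s) ≤ -1) := by
    intro y
    have hF := Fj_nonneg (y / s)
    rcases lt_trichotomy y 0 with h | h | h
    · have h1 := abs_le.1 (PJ_npos (u := y / s) (div_neg_of_neg_of_pos h hs0))
      exact ⟨by linarith, by linarith, fun h2 => by linarith, fun _ => by linarith⟩
    · rw [h, zero_div, PJ_zero, Fj_zero]
      norm_num
    · have h1 := abs_le.1 (PJ_pos (u := y / s) (by positivity))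
      exact ⟨by linarith, by linarith, fun _ => by linarith, fun h2 => by linarith⟩
  obtain ⟨a1, a2, a3, a4⟩ := hx x
  obtain ⟨b1, b2, b3, b4⟩ := hx (x - v)
  split_ifs with h
  · have c1 := a3 h.1
    have c2 := b4 (by linarith [h.2])
    linarith
  · rcases lt_or_ge x 0 with h1 | h1
    · have c2 := b4 (by linarith)
      linarith
    · have h2 : v < x := by
        by_contra hcon
        push Not at hcon
        exact h ⟨h1, hcon⟩
      have c1 := a3 h1
      linarith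

/-- upper bounds for the minorant -/
lemma mino {s v x : ℝ} (hs : 1 ≤ s) (hv : 0 ≤ v) :
    fG (Gb (-1) s v) x ≤ if 0 < x ∧ x < v then (1 : ℝ) else 0 := by
  have hs0 : 0 < s := by linarith
  rw [fG_Gb hs hv]
  have hx : ∀ y : ℝ, (-1 ≤ 2 * PJ (y / s) + Fj (y / s)) ∧ (2 * PJ (y / s) - Fj (y / s) ≤ 1) ∧
      (0 ≤ y → 1 ≤ 2 * PJ (y / s) + Fj (y / s)) ∧ (y ≤ 0 → 2 * PJ (y / s) - Fj (y / s) ≤ -1) := by
    intro y
    have hF := Fj_nonneg (y / s)
    rcases lt_trichotomy y 0 with h | h | h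
    · have h1 := abs_le.1 (PJ_npos (u := y / s) (div_neg_of_neg_of_pos h hs0))
      exact ⟨by linarith, by linarith, fun h2 => by linarith, fun _ => by linarith⟩
    · rw [h, zero_div, PJ_zero, Fj_zero]
      norm_num
    · have h1 := abs_le.1 (PJ_pos (u := y / s) (by positivity))
      exact ⟨by linarith, by linarith, fun _ => by linarith, fun h2 => by linarith⟩
  obtain ⟨a1, a2, a3, a4⟩ := hx x
  obtain ⟨b1, b2, b3, b4⟩ := hx (x - v)
  split_ifs with h
  · linarith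
  · rcases le_or_gt x 0 with h1 | h1
    · have c1 := a4 h1
      linarith
    · have h2 : v ≤ x := by
        by_contra hcon
        push Not at hcon
        exact h ⟨h1, hcon⟩
      have c2 := b3 (by linarith)
      linarith

/-- the variance -/
lemma Vr_Gb {σ b m v : ℝ} (hσ : |σ| ≤ 1) (hb : 1 ≤ b) (hbm : b ≤ m) (hv : 0 ≤ v) (hvm : v ≤ m) :
    Vr (Gb σ b v) ≤ 22 + 4 * Real.log (m / b) := by
  have hpi3 := Real.pi_gt_three
  have hm : 0 < m := by linarith
  have hb0 : 0 < b := by linarith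
  obtain ⟨M, Λ, hB⟩ := Gb_Bd (σ := σ) (s := b) hb0 hv
  have hc := hB.cont
  have hF : Continuous fun ξ : ℝ => ξ * ‖Gb σ b v ξ‖ ^ 2 := by fun_prop
  have i : ∀ x y, IntervalIntegrable (fun ξ : ℝ => ξ * ‖Gb σ b v ξ‖ ^ 2) volume x y :=
    fun x y => hF.intervalIntegrable x y
  have c1 : 0 < 1 / m := by positivity
  have c2 : 1 / m ≤ 1 / b := one_div_le_one_div_of_le hb0 hbm
  have c3 : 1 / b ≤ 1 := by
    rw [div_le_one hb0]
    exact hb
  have hn : ∀ ξ, ‖Gb σ b v ξ‖ ^ 2 ≤ 18 * ‖Ev v ξ‖ ^ 2 + 2 * b ^ 2 := by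
    intro ξ
    have h1 : ‖Gb σ b v ξ‖ ≤ 3 * ‖Ev v ξ‖ + b := by
      unfold Gb
      refine (norm_add_le _ _).trans (add_le_add ?_ ?_)
      · unfold GJ
        rw [norm_mul, Complex.norm_real, Real.norm_eq_abs]
        exact mul_le_mul_of_nonneg_right (Jh_bd _) (norm_nonneg _)
      · rw [norm_mul, Complex.norm_real, Real.norm_eq_abs]
        have h2 := (Gf_Bd hb0).bd ξ
        have h3 : ‖Sh v (Gf b) ξ‖ ≤ b / 2 := by
          rw [Sh_norm]
          exact h2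
        have h4 : ‖Gf b ξ + Sh v (Gf b) ξ‖ ≤ b := (norm_add_le _ _).trans (by linarith)
        calc |σ| * ‖Gf b ξ + Sh v (Gf b) ξ‖ ≤ 1 * b := mul_le_mul hσ h4 (norm_nonneg _) zero_le_one
          _ = b := one_mul _
    have h5 := pow_le_pow_left₀ (norm_nonneg _) h1 2
    nlinarith [sq_nonneg (3 * ‖Ev v ξ‖ - b)]
  unfold Vr
  rw [← intervalIntegral.integral_add_adjacent_intervals (i 0 (1 / m)) (i (1 / m) 1),
    ← intervalIntegral.integral_add_adjacent_intervals (i (1 / m) (1 / b)) (i (1 / b) 1)]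
  have e2 : ∫ ξ in (1 / b)..(1 : ℝ), ξ * ‖Gb σ b v ξ‖ ^ 2 = 0 := by
    rw [intervalIntegral.integral_congr (g := fun _ => (0 : ℝ)), intervalIntegral.integral_zero]
    intro ξ hξ
    rw [uIcc_of_le c3] at hξ
    show ξ * ‖Gb σ b v ξ‖ ^ 2 = 0
    rw [hB.supp ξ (by
      have h1 : 0 < 1 / b := by positivity
      rw [abs_of_pos (by linarith [hξ.1])]
      exact hξ.1), norm_zero]
    ring
  have e1 : ∫ ξ in (0 : ℝ)..(1 / m), ξ * ‖Gb σ b v ξ‖ ^ 2 ≤ 9 + 1 := by
    have h1 : ∫ ξ in (0 : ℝ)..(1 / m), ξ * ‖Gb σ b v ξ‖ ^ 2 ≤ ∫ ξ in (0 : ℝ)..(1 / m), (18 * m ^ 2 + 2 * m ^ 2) * ξ := by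
      apply intervalIntegral.integral_mono_on c1.le (i _ _) (Continuous.intervalIntegrable (by fun_prop) _ _)
      intro ξ hξ
      have h2 : ‖Ev v ξ‖ ^ 2 ≤ m ^ 2 := pow_le_pow_left₀ (norm_nonneg _) ((Ev_bd hv ξ).trans hvm) 2
      have h4 : b ^ 2 ≤ m ^ 2 := pow_le_pow_left₀ hb0.le hbm 2
      have h3 := hξ.1
      have h5 := hn ξ
      calc ξ * ‖Gb σ b v ξ‖ ^ 2 ≤ ξ * (18 * m ^ 2 + 2 * m ^ 2) := by
            apply mul_le_mul_of_nonneg_left _ h3
            linarith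
        _ = _ := by ring
    refine h1.trans (le_of_eq ?_)
    rw [intervalIntegral.integral_const_mul, integral_id]
    field_simp
    ring
  have e3 : ∫ ξ in (1 / m)..(1 / b), ξ * ‖Gb σ b v ξ‖ ^ 2 ≤ 2 * Real.log (m / b) + 1 := by
    have h0 : ∫ ξ in (1 / m)..(1 / b), (1 : ℝ) / ξ = Real.log (m / b) := by
      rw [integral_one_div_of_pos c1 (by positivity)]
      congr 1
      field_simp
    have hi : IntervalIntegrable (fun ξ : ℝ => (1 : ℝ) / ξ) volume (1 / m) (1 / b) := by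
      apply ContinuousOn.intervalIntegrable
      intro ξ hξ
      rw [uIcc_of_le c2] at hξ
      have : ξ ≠ 0 := by linarith [hξ.1]
      exact (continuousAt_const.div continuousAt_id this).continuousWithinAt
    have hj : IntervalIntegrable (fun ξ : ℝ => 2 * b ^ 2 * ξ) volume (1 / m) (1 / b) :=
      Continuous.intervalIntegrable (by fun_prop) _ _
    have h1 : ∫ ξ in (1 / m)..(1 / b), ξ * ‖Gb σ b v ξ‖ ^ 2 ≤
        ∫ ξ in (1 / m)..(1 / b), (2 * (1 / ξ) + 2 * b ^ 2 * ξ) := by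
      apply intervalIntegral.integral_mono_on c2 (i _ _) ((hi.const_mul 2).add hj)
      intro ξ hξ
      have hξ0 : 0 < ξ := by linarith [hξ.1]
      have h2 : ‖Ev v ξ‖ ≤ 1 / (Real.pi * ξ) := Ev_dec v hξ0
      have h3 : 1 / (Real.pi * ξ) ≤ 1 / (3 * ξ) := by
        apply one_div_le_one_div_of_le (by positivity)
        gcongr
      have h4 : ‖Ev v ξ‖ ^ 2 ≤ (1 / (3 * ξ)) ^ 2 := pow_le_pow_left₀ (norm_nonneg _) (h2.trans h3) 2
      calc ξ * ‖Gb σ b v ξ‖ ^ 2 ≤ ξ * (18 * (1 / (3 * ξ)) ^ 2 + 2 * b ^ 2) := by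
            apply mul_le_mul_of_nonneg_left _ hξ0.le
            have := hn ξ
            linarith
        _ = _ := by
            field_simp
            ring
    refine h1.trans ?_
    rw [intervalIntegral.integral_add (hi.const_mul 2) hj, intervalIntegral.integral_const_mul, h0,
      intervalIntegral.integral_const_mul, integral_id]
    have h5 : 2 * b ^ 2 * (((1 / b) ^ 2 - (1 / m) ^ 2) / 2) ≤ 1 := by
      have e : 2 * b ^ 2 * (((1 / b) ^ 2 - (1 / m) ^ 2) / 2) = 1 - (b / m) ^ 2 := by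
        field_simp
      rw [e]
      have := sq_nonneg (b / m)
      linarith
    linarith
  have hlog : 0 ≤ Real.log (m / b) := Real.log_nonneg (by rw [le_div_iff₀ hb0]; linarith)
  rw [e2]
  linarith

end

end Pool.Agent.K6.H57.VL
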