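import Pool.Agent.K6.H57.VL.Vb
import Pool.Agent.K6.H57.MX.Tl

/-! # Moments of the prime polynomials up to the end of the diagonal range -/

set_option autoImplicit false

open MeasureTheory Set Filter Topology
open scoped ContDiff NNReal

namespace Pool.Agent.K6.H57.VL

open Pool.Agent.K6.H57.MX
open Pool.Agent.K6.H57.ML
open Pool.Agent.R320.JL (PP nz PP_cont PP_pow mt sg sg_norm mt_norm)
open Pool.Agent.Y743.CL (Pr mem_Pr VS VS_nonneg pr pr_apply pr_supp SS_eq SS_le)
open SP (bt)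

noncomputable section

/-- **the high moments at one height** -/
lemma mom_up (z : ℕ → ℂ) (X a : ℕ) {A B : ℝ} (hAB : A ≤ B) (hX : 1 ≤ X) :
    ∫ t in A..B, ‖PP z X t‖ ^ (2 * a) ≤
      ((B - A) + 8 * ((X ^ a : ℕ) : ℝ) * (1 + Real.log ((X ^ a : ℕ) : ℝ))) * (a.factorial * VS (nz z) X ^ a) := by
  obtain ⟨c, hc⟩ : ∃ c : ℕ → ℝ, c = nz z := ⟨_, rfl⟩
  obtain ⟨u, hu⟩ : ∃ u : ℕ → ℂ, u = mt (sg z) := ⟨_, rfl⟩
  have hun : ∀ n, ‖u n‖ = 1 := by rw [hu]; exact mt_norm _ (sg_norm z)
  obtain ⟨N, hN⟩ : ∃ N : ℕ, N = X ^ a := ⟨_, rfl⟩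
  have hN1 : 1 ≤ N := by rw [hN]; exact Nat.one_le_pow _ _ hX
  have hint : ∀ t : ℝ, ((‖PP z X t‖ ^ (2 * a) : ℝ) : ℂ) =
      (∑ n ∈ Finset.Icc 1 N, ((((pr c X ^ a) n : ℝ) : ℂ) * u n) * (n : ℂ) ^ (-(t : ℂ) * Complex.I)) *
      (starRingEnd ℂ) (∑ n ∈ Finset.Icc 1 N, ((((pr c X ^ a) n : ℝ) : ℂ) * u n) *
        (n : ℂ) ^ (-(t : ℂ) * Complex.I)) := by
    intro t
    have h1 : PP z X t ^ a = ∑ n ∈ Finset.Icc 1 N, ((((pr c X ^ a) n : ℝ) : ℂ) * u n) *
        (n : ℂ) ^ (-(t : ℂ) * Complex.I) := by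
      rw [PP_pow z X t a N hN.ge, hc, hu]
      rfl
    rw [← h1, Complex.mul_conj, Complex.normSq_eq_norm_sq, norm_pow, ← pow_mul, mul_comm a 2]
  have hMV := Pool.Agent.Y840.SW.t_MVB N A B hAB
    (fun n => (((pr c X ^ a) n : ℝ) : ℂ) * u n) (fun n => (((pr c X ^ a) n : ℝ) : ℂ) * u n)
  simp only [← hint] at hMV
  have huu : ∀ n, u n * (starRingEnd ℂ) (u n) = 1 := by
    intro n
    rw [Complex.mul_conj, Complex.normSq_eq_norm_sq, hun]
    norm_num
  obtain ⟨S, hS⟩ : ∃ S : ℝ, S = ∑ n ∈ Finset.Icc 1 N, (pr c X ^ a) n ^ 2 := ⟨_, rfl⟩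
  have hS0 : 0 ≤ S := by rw [hS]; exact Finset.sum_nonneg fun _ _ => sq_nonneg _
  have hSle : S ≤ a.factorial * VS c X ^ a := by
    rw [hS, SS_eq a N hN.ge]
    exact SS_le c X a
  have e1 : (∑ n ∈ Finset.Icc 1 N, ((((pr c X ^ a) n : ℝ) : ℂ) * u n) *
      (starRingEnd ℂ) ((((pr c X ^ a) n : ℝ) : ℂ) * u n)) = (S : ℂ) := by
    rw [hS]
    push_cast
    refine Finset.sum_congr rfl fun n _ => ?_
    rw [map_mul, Complex.conj_ofReal]
    calc _ = (((pr c X ^ a) n : ℝ) : ℂ) ^ 2 * (u n * (starRingEnd ℂ) (u n)) := by ring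
      _ = _ := by rw [huu, mul_one]
  have e2 : ∑ n ∈ Finset.Icc 1 N, ‖(((pr c X ^ a) n : ℝ) : ℂ) * u n‖ ^ 2 = S := by
    rw [hS]
    refine Finset.sum_congr rfl fun n _ => ?_
    rw [norm_mul, hun, mul_one, Complex.norm_real, Real.norm_eq_abs, sq_abs]
  rw [e1, e2, Real.mul_self_sqrt hS0] at hMV
  have e3 : (∫ t in A..B, ((‖PP z X t‖ ^ (2 * a) : ℝ) : ℂ)) = ((∫ t in A..B, ‖PP z X t‖ ^ (2 * a) : ℝ) : ℂ) :=
    intervalIntegral.integral_ofReal
  rw [e3, ← Complex.ofReal_mul, ← Complex.ofReal_sub, Complex.norm_real, Real.norm_eq_abs] at hMV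
  have h1 := (abs_le.1 hMV).2
  rw [← hN, ← hc]
  have hl : 0 ≤ Real.log N := Real.log_natCast_nonneg N
  have hBA : 0 ≤ B - A := by linarith
  calc ∫ t in A..B, ‖PP z X t‖ ^ (2 * a) ≤ (B - A) * S + 8 * N * (1 + Real.log N) * S := by linarith
    _ = ((B - A) + 8 * N * (1 + Real.log N)) * S := by ring
    _ ≤ _ := by
        apply mul_le_mul_of_nonneg_left hSle
        positivity

/-- the length of the truncated polynomial -/
def YY (lam T : ℝ) : ℕ := ⌊Real.exp (lam * Real.log T)⌋₊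

/-- the truncated polynomial -/
def QG (lam : ℝ) (G : ℝ → ℂ) (T t : ℝ) : ℝ := ‖PP (zp T (WG T G)) (YY lam T) t‖

lemma QG_cont (lam : ℝ) (G : ℝ → ℂ) (T : ℝ) : Continuous (QG lam G T) := by
  unfold QG
  exact (PP_cont _ _).norm

lemma QG_nonneg (lam : ℝ) (G : ℝ → ℂ) (T t : ℝ) : 0 ≤ QG lam G T t := norm_nonneg _

/-- a super-polynomial limit -/
lemma far_lim (c b K : ℝ) (hc : 0 < c) : Tendsto (fun T : ℝ => K * (Real.log T * Real.exp (b * Real.log T -
    (c * Real.log T) ^ 2 / 2))) atTop (𝓝 0) := by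
  have h1 : Tendsto (fun x : ℝ => x * Real.exp (b * x - (c * x) ^ 2 / 2)) atTop (𝓝 0) := by
    have h2 : Tendsto (fun x : ℝ => x ^ 1 * Real.exp (-x)) atTop (𝓝 0) := Real.tendsto_pow_mul_exp_neg_atTop_nhds_zero 1
    refine squeeze_zero' ?_ ?_ h2
    · filter_upwards [eventually_ge_atTop 0] with x hx
      positivity
    · filter_upwards [eventually_ge_atTop (2 * (|b| + 1) / c ^ 2), eventually_ge_atTop 0] with x hx hx0
      rw [pow_one]
      apply mul_le_mul_of_nonneg_left _ hx0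
      apply Real.exp_le_exp.2
      rw [div_le_iff₀ (by positivity)] at hx
      have h3 : b * x ≤ |b| * x := mul_le_mul_of_nonneg_right (le_abs_self b) hx0
      nlinarith
  have h3 := (h1.comp Real.tendsto_log_atTop).const_mul K
  rw [mul_zero] at h3
  exact h3

/-- **truncation** -/
lemma PG_QG {κ M Λ : ℝ} {G : ℝ → ℂ} (h : Bd κ M Λ G) (hκ0 : 0 < κ) {η : ℝ} (hη : 0 < η) (hη1 : η ≤ 1)
    {w0 : ℝ} (hw0 : 0 < w0) :
    ∀ᶠ T in atTop, ∀ t : ℝ, |PG κ G T t| ≤ QG ((1 + η) * κ) G T t + w0 := by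
  have hM := h.M0
  have l1 := far_lim (η * κ) (2 * κ) (2 * κ * (2 * M)) (by positivity)
  filter_upwards [l1.eventually_le_const hw0, eventually_ge_atTop 10] with T g1 hT t
  have hT1 : 1 < T := by linarith
  have hL1 := log3 (by linarith : (3 : ℝ) ≤ T)
  have hL : 0 < Real.log T := by linarith
  obtain ⟨z, hz⟩ : ∃ z : ℕ → ℂ, z = zp T (WG T G) := ⟨_, rfl⟩
  obtain ⟨L, hLd⟩ : ∃ L : ℝ, L = Real.log T := ⟨_, rfl⟩
  have h1 : ‖PP z (XX κ T) t‖ ≤ ‖PP z (YY ((1 + η) * κ) T) t‖ + w0 := by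
    have h2 : ‖PP z (XX κ T) t - PP z (YY ((1 + η) * κ) T) t‖ ≤ w0 := by
      refine le_trans ?_ g1
      -- a bound for the far coefficients
      have hfar : ∀ p ∈ Pr (XX κ T) \ Pr (YY ((1 + η) * κ) T), ‖z p * (p : ℂ) ^ (-(t : ℂ) * Complex.I)‖ ≤
          2 * κ * (2 * M) * (Real.log T * Real.exp (-(η * κ * Real.log T) ^ 2 / 2)) := by
        intro p hp
        rw [Finset.mem_sdiff, mem_Pr, mem_Pr] at hp
        obtain ⟨⟨hpp, hpX⟩, hpY⟩ := hp
        have hp0 : (0 : ℝ) < p := by exact_mod_cast hpp.pos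
        have hpY' : YY ((1 + η) * κ) T < p := by
          by_contra hcon
          push Not at hcon
          exact hpY ⟨hpp, hcon⟩
        have hlo : (1 + η) * κ * Real.log T ≤ Real.log p := by
          rw [Real.le_log_iff_exp_le hp0]
          unfold YY at hpY'
          exact ((Nat.floor_lt (Real.exp_pos _).le).1 hpY').le
        have hup : Real.log p ≤ 2 * (κ * Real.log T) := by
          rw [Real.log_le_iff_le_exp hp0]
          exact (show (p : ℝ) ≤ XX κ T by exact_mod_cast hpX).trans (Nat.floor_le (Real.exp_pos _).le)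
        have hnorm : ‖(p : ℂ) ^ (-(t : ℂ) * Complex.I)‖ = 1 := by
          have := Complex.norm_natCast_cpow_of_pos hpp.pos (-(t : ℂ) * Complex.I)
          rw [this]
          simp
        rw [norm_mul, hnorm, mul_one, hz]
        unfold zp
        rw [norm_mul, Complex.norm_real, Real.norm_of_nonneg (by
          have := Real.log_natCast_nonneg p
          positivity)]
        have hb := SP.bt_far T hT1.le (WG T G) (2 * M / Real.log T) (κ * Real.log T)
          (fun u _ => WG_bd h hT1 u) (fun u hu => WG_zero h hT1 hu) p (by nlinarith [mul_pos (mul_pos hη hκ0) hL])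
        have hexp : Real.exp (-(Real.log p - κ * Real.log T) ^ 2 / 2) ≤ Real.exp (-(η * κ * Real.log T) ^ 2 / 2) := by
          apply Real.exp_le_exp.2
          have h5 : η * κ * Real.log T ≤ Real.log p - κ * Real.log T := by linarith
          have h6 : (η * κ * Real.log T) ^ 2 ≤ (Real.log p - κ * Real.log T) ^ 2 :=
            pow_le_pow_left₀ (by positivity) h5 2
          linarith
        have hsq : Real.log p / Real.sqrt p ≤ 2 * (κ * Real.log T) := by
          refine (div_le_self (Real.log_natCast_nonneg p) ?_).trans hup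
          rw [Real.one_le_sqrt]
          exact_mod_cast hpp.one_lt.le
        calc Real.log p / Real.sqrt p * ‖bt T (WG T G) p‖ ≤
            2 * (κ * Real.log T) * (2 * M / Real.log T * Real.exp (-(η * κ * Real.log T) ^ 2 / 2) * Real.log T) := by
              apply mul_le_mul hsq _ (norm_nonneg _) (by positivity)
              refine hb.trans ?_
              gcongr
          _ = _ := by
              field_simp
      have hYX : YY ((1 + η) * κ) T ≤ XX κ T := by
        unfold YY XX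
        apply Nat.floor_le_floor
        apply Real.exp_le_exp.2
        nlinarith [mul_pos hκ0 hL]
      have hs : Pr (YY ((1 + η) * κ) T) ⊆ Pr (XX κ T) := by
        intro p hp
        rw [mem_Pr] at hp ⊢
        exact ⟨hp.1, hp.2.trans hYX⟩
      unfold PP
      rw [← Finset.sum_sdiff hs, add_sub_cancel_right]
      refine (norm_sum_le _ _).trans ((Finset.sum_le_sum hfar).trans ?_)
      rw [Finset.sum_const, nsmul_eq_mul]
      have hcard : ((Pr (XX κ T) \ Pr (YY ((1 + η) * κ) T)).card : ℝ) ≤ Real.exp (2 * κ * Real.log T) := by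
        have h5 : (Pr (XX κ T) \ Pr (YY ((1 + η) * κ) T)).card ≤ XX κ T := by
          have h6 : Pr (XX κ T) \ Pr (YY ((1 + η) * κ) T) ⊆ Finset.Icc 1 (XX κ T) := by
            intro p hp
            rw [Finset.mem_sdiff, mem_Pr] at hp
            rw [Finset.mem_Icc]
            exact ⟨hp.1.1.one_lt.le, hp.1.2⟩
          have := Finset.card_le_card h6
          rwa [Nat.card_Icc, Nat.add_sub_cancel] at this
        have h7 : ((Pr (XX κ T) \ Pr (YY ((1 + η) * κ) T)).card : ℝ) ≤ XX κ T := by exact_mod_cast h5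
        refine h7.trans ((Nat.floor_le (Real.exp_pos _).le).trans (le_of_eq ?_))
        congr 1
        ring
      calc ((Pr (XX κ T) \ Pr (YY ((1 + η) * κ) T)).card : ℝ) *
            (2 * κ * (2 * M) * (Real.log T * Real.exp (-(η * κ * Real.log T) ^ 2 / 2))) ≤
          Real.exp (2 * κ * Real.log T) *
            (2 * κ * (2 * M) * (Real.log T * Real.exp (-(η * κ * Real.log T) ^ 2 / 2))) :=
            mul_le_mul_of_nonneg_right hcard (by positivity)
        _ = 2 * κ * (2 * M) * (Real.log T * (Real.exp (2 * κ * Real.log T) *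
            Real.exp (-(η * κ * Real.log T) ^ 2 / 2))) := by ring
        _ = _ := by
            rw [← Real.exp_add]
            congr 3
            ring_nf
    calc ‖PP z (XX κ T) t‖ = ‖PP z (YY ((1 + η) * κ) T) t + (PP z (XX κ T) t - PP z (YY ((1 + η) * κ) T) t)‖ := by
          congr 1
          ring
      _ ≤ _ := (norm_add_le _ _).trans (add_le_add le_rfl h2)
  have h2 : |PG κ G T t| ≤ ‖PP z (XX κ T) t‖ := by
    rw [hz]
    exact Complex.abs_re_le_norm _
  rw [hz] at h1 h2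
  exact h2.trans h1

lemma pow_small {θ : ℝ} (hθ : θ < 1) : ∀ᶠ T : ℝ in atTop,
    8 * Real.exp (θ * Real.log T) * (1 + |θ| * Real.log T) ≤ T := by
  have h1 : Tendsto (fun x : ℝ => 8 * ((1 + |θ| * x) * Real.exp (-((1 - θ) * x)))) atTop (𝓝 0) := by
    have hc : 0 < 1 - θ := by linarith
    have h2 : Tendsto (fun x : ℝ => (1 - θ) * x) atTop atTop := tendsto_id.const_mul_atTop hc
    have h3 := (Real.tendsto_pow_mul_exp_neg_atTop_nhds_zero 0).comp h2
    have h4 := ((Real.tendsto_pow_mul_exp_neg_atTop_nhds_zero 1).comp h2).const_mul (|θ| / (1 - θ))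
    have h5 := (h3.add h4).const_mul 8
    rw [mul_zero, add_zero, mul_zero] at h5
    refine h5.congr fun x => ?_
    simp only [Function.comp]
    field_simp
  have h2 := (h1.comp Real.tendsto_log_atTop).eventually_le_const zero_lt_one
  filter_upwards [h2, eventually_gt_atTop 0] with T hT hT0
  simp only [Function.comp] at hT
  have e : Real.exp (θ * Real.log T) = Real.exp (-((1 - θ) * Real.log T)) * T := by
    nth_rw 3 [← Real.exp_log hT0]
    rw [← Real.exp_add]
    congr 1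
    ring
  rw [e]
  have := mul_le_mul_of_nonneg_right hT hT0.le
  linarith

/-- **moments of the truncated polynomial** -/
theorem QG_mom {κ M Λ : ℝ} {G : ℝ → ℂ} (h : Bd κ M Λ G) (hκ0 : 0 < κ) (hκ : κ ≤ 1 / 4) {lam : ℝ}
    (hl0 : 0 ≤ lam) (hl : lam ≤ 2 * κ) (a : ℕ) (ha : lam * a < 1) :
    ∀ᶠ T in atTop, EX T (fun t => QG lam G T t ^ (2 * a)) ≤ 2 * (a.factorial * (2 * Vr G + 1) ^ a) := by
  have hV := (VS_lim h hκ0 hκ).eventually_le_const (show 2 * Vr G < 2 * Vr G + 1 by linarith)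
  have hV0 := Vr_nonneg G
  filter_upwards [hV, pow_small ha, eventually_ge_atTop 10] with T g1 g2 hT
  have hT0 : 0 < T := by linarith
  have hL1 := log3 (by linarith : (3 : ℝ) ≤ T)
  have hL : 0 < Real.log T := by linarith
  have hlT := Real.log_le_sub_one_of_pos hT0
  have hl2 : 2 * Real.log T ≤ T := by
    have h1 := Real.log_le_sub_one_of_pos (show 0 < T / 2 by positivity)
    rw [Real.log_div (by positivity) (by norm_num)] at h1
    have h2 := Real.log_two_lt_d9
    linarith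
  have e1 : EX T (fun t => QG lam G T t ^ (2 * a)) =
      (∫ t in (T + Real.log T)..(2 * T - Real.log T), QG lam G T t ^ (2 * a)) / T := by
    unfold EX Wd
    rw [integral_Icc_eq_integral_Ioc, ← intervalIntegral.integral_of_le (by linarith)]
  rw [e1, div_le_iff₀ hT0]
  have hX : 1 ≤ YY lam T := by
    unfold YY
    apply Nat.le_floor
    push_cast
    rw [Real.one_le_exp_iff]
    positivity
  have h1 := mom_up (zp T (WG T G)) (YY lam T) a (A := T + Real.log T) (B := 2 * T - Real.log T)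
    (by linarith) hX
  refine h1.trans ?_
  have hVS : VS (nz (zp T (WG T G))) (YY lam T) ≤ 2 * Vr G + 1 := by
    refine le_trans ?_ g1
    unfold VS
    apply Finset.sum_le_sum_of_subset_of_nonneg
    · intro p hp
      rw [mem_Pr] at hp ⊢
      refine ⟨hp.1, hp.2.trans ?_⟩
      unfold YY XX
      apply Nat.floor_le_floor
      apply Real.exp_le_exp.2
      nlinarith
    · intro p _ _
      exact sq_nonneg _
  have hXa : ((YY lam T ^ a : ℕ) : ℝ) ≤ Real.exp (lam * a * Real.log T) := by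
    push_cast
    have h2 : (YY lam T : ℝ) ≤ Real.exp (lam * Real.log T) := Nat.floor_le (Real.exp_pos _).le
    calc (YY lam T : ℝ) ^ a ≤ Real.exp (lam * Real.log T) ^ a := by gcongr
      _ = Real.exp (a * (lam * Real.log T)) := by rw [← Real.exp_nat_mul]
      _ = _ := by congr 1; ring
  have hXl : Real.log ((YY lam T ^ a : ℕ) : ℝ) ≤ |lam * a| * Real.log T := by
    have hp : (0 : ℝ) < ((YY lam T ^ a : ℕ) : ℝ) := by
      have : 0 < YY lam T ^ a := by positivity
      exact_mod_cast this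
    refine (Real.log_le_log hp hXa).trans ?_
    rw [Real.log_exp]
    exact mul_le_mul_of_nonneg_right (le_abs_self _) hL.le
  have hXl0 : 0 ≤ Real.log ((YY lam T ^ a : ℕ) : ℝ) := Real.log_natCast_nonneg _
  have h3 : 8 * ((YY lam T ^ a : ℕ) : ℝ) * (1 + Real.log ((YY lam T ^ a : ℕ) : ℝ)) ≤ T := by
    refine le_trans ?_ g2
    gcongr
  have h4 : (0 : ℝ) ≤ a.factorial * VS (nz (zp T (WG T G))) (YY lam T) ^ a := by
    have := VS_nonneg (nz (zp T (WG T G))) (YY lam T)
    positivity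
  calc _ ≤ (T + T) * (a.factorial * VS (nz (zp T (WG T G))) (YY lam T) ^ a) := by
        apply mul_le_mul_of_nonneg_right _ h4
        linarith
    _ ≤ (T + T) * (a.factorial * (2 * Vr G + 1) ^ a) := by
        have := VS_nonneg (nz (zp T (WG T G))) (YY lam T)
        gcongr
    _ = _ := by ring

end

end Pool.Agent.K6.H57.VL
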