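import Pool.Agent.K6.H57.VL.Vc
import Pool.Agent.K6.H57.MX.Pt

/-! # Exceptional blocks of gaps and large values of the prime side -/

set_option autoImplicit false

open MeasureTheory Set Filter Topology
open scoped ContDiff NNReal

namespace Pool.Agent.K6.H57.VL

open Pool.Agent.K6.H57.MX
open Pool.Agent.K6.H57.ML
open SG (ord NZ)
open Pool.Agent.R320.CL (SS dl)

noncomputable section

/-- upper bounds for damped statistics by counting -/
lemma DS_card {f : ℝ → ℝ} {α β : ℝ} (hf : ∀ x, f x ≤ if α < x ∧ x < β then (1 : ℝ) else 0) (T t : ℝ)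
    (S : Finset ℕ) (hS : ∀ m, α < Real.log T * (ord m - t) / (2 * Real.pi) →
      Real.log T * (ord m - t) / (2 * Real.pi) < β → 1 ≤ m → m ∈ S) : DS f T t ≤ S.card := by
  classical
  unfold DS
  have h1 : ∑ n ∈ Finset.Ioc (NZ T) (NZ (2 * T)),
      Real.exp (-(ord n - t) ^ 2 / 2) * f (Real.log T * (ord n - t) / (2 * Real.pi)) ≤
      ∑ n ∈ Finset.Ioc (NZ T) (NZ (2 * T)), if α < Real.log T * (ord n - t) / (2 * Real.pi) ∧
        Real.log T * (ord n - t) / (2 * Real.pi) < β then (1 : ℝ) else 0 := by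
    apply Finset.sum_le_sum
    intro n _
    have h2 := hf (Real.log T * (ord n - t) / (2 * Real.pi))
    have h3 : Real.exp (-(ord n - t) ^ 2 / 2) ≤ 1 := by
      rw [Real.exp_le_one_iff]
      nlinarith [sq_nonneg (ord n - t)]
    have h4 := Real.exp_pos (-(ord n - t) ^ 2 / 2)
    split_ifs at h2 ⊢ with h
    · rcases le_or_gt 0 (f (Real.log T * (ord n - t) / (2 * Real.pi))) with h5 | h5
      · nlinarith
      · nlinarith
    · nlinarith
  refine h1.trans ?_
  rw [← Finset.sum_filter, Finset.sum_const, nsmul_eq_mul, mul_one]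
  have : (Finset.Ioc (NZ T) (NZ (2 * T))).filter (fun n => α < Real.log T * (ord n - t) / (2 * Real.pi) ∧
      Real.log T * (ord n - t) / (2 * Real.pi) < β) ⊆ S := by
    intro m hm
    rw [Finset.mem_filter, Finset.mem_Ioc] at hm
    exact hS m hm.2.1 hm.2.2 (by omega)
  exact_mod_cast Finset.card_le_card this

/-- lower bounds for damped statistics by counting -/
lemma DS_cnt {f : ℝ → ℝ} {v : ℝ} (hv : 0 ≤ v) (hf : ∀ x, (if 0 ≤ x ∧ x ≤ v then (1 : ℝ) else 0) ≤ f x) {T t : ℝ}
    (hL : 0 < Real.log T) (hT : T ≤ t) (h2 : t + 2 * Real.pi * v / Real.log T ≤ 2 * T) :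
    ((NZ (t + 2 * Real.pi * v / Real.log T) : ℝ) - NZ t) * (1 - (2 * Real.pi * v / Real.log T) ^ 2 / 2) ≤
      DS f T t := by
  have h1 := (abs_le.1 (cnt_DS hL hT hv h2)).2
  have h3 : DS (wn v) T t ≤ DS f T t := by
    unfold DS
    apply Finset.sum_le_sum
    intro n _
    apply mul_le_mul_of_nonneg_left _ (Real.exp_pos _).le
    refine le_trans ?_ (hf _)
    unfold wn
    split_ifs with a b
    · exact le_rfl
    · exact absurd ⟨a.1.le, a.2⟩ b
    · norm_num
    · exact le_rfl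
  nlinarith

/-- **long blocks** -/
lemma long_pt (RH : RiemannHypothesis) {s v : ℝ} (hs : 1 ≤ s) (hv : 0 ≤ v) : ∀ᶠ T in atTop, ∀ t ∈ Wd T,
    ∀ n r : ℕ, 1 ≤ n → 1 ≤ r → t < ord n → ord n < t + 2 * Real.pi / Real.log T → v + 1 ≤ pr T r n →
    v - s - r ≤ |EG (Sh 1 (Gb (-1) s v)) T t| := by
  obtain ⟨C0, T0, hC0, hT0, hxf⟩ := xf RH
  have hs0 : 0 < s := by linarith
  obtain ⟨M, Λ, hB⟩ := Gb_Bd (σ := -1) hs0 hv
  have hB1 := hB.sh 1
  have hs1 : 1 / s ≤ 1 := by
    rw [div_le_one hs0]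
    exact hs
  have lim : ∀ A : ℝ, ∀ η : ℝ, 0 < η → ∀ᶠ T in atTop, A / Real.log T ≤ η := fun A η hη =>
    (Real.tendsto_log_atTop.const_div_atTop A).eventually_le_const hη
  filter_upwards [lim (C0 * (M + (Λ + 2 * Real.pi * |(1 : ℝ)| * M))) 1 one_pos, eventually_ge_atTop T0,
    eventually_ge_atTop 10] with T g1 g2 g3 t ht n r hn hr h1 h2 hpr
  have hpi := Real.pi_pos
  have hT1 : 1 < T := by linarith
  have hL : 0 < Real.log T := Real.log_pos hT1
  unfold Wd at ht
  rw [mem_Icc] at ht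
  obtain ⟨ht1, ht2⟩ := ht
  have a1 := hxf T g2 t ht1 ht2 _ _ _ _ hs1 hB1
  have e0 : (Sh 1 (Gb (-1) s v) 0).re = v - s := by
    unfold Sh
    rw [mul_zero, neg_zero, Complex.ofReal_zero, zero_mul, Complex.exp_zero, one_mul, Gb_zero]
    ring
  rw [e0] at a1
  have a2 : DS (fG (Sh 1 (Gb (-1) s v))) T t ≤ ((Finset.Ioo n (n + r)).card : ℝ) := by
    apply DS_card (α := 1) (β := 1 + v)
    · intro x
      rw [fG_Sh]
      refine (mino hs hv).trans (le_of_eq ?_)
      congr 1
      rw [eq_iff_iff]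
      constructor
      · rintro ⟨h3, h4⟩
        exact ⟨by linarith, by linarith⟩
      · rintro ⟨h3, h4⟩
        exact ⟨by linarith, by linarith⟩
    · intro m hm1 hm2 hm
      rw [lt_div_iff₀ (by positivity)] at hm1
      rw [div_lt_iff₀ (by positivity)] at hm2
      rw [Finset.mem_Ioo]
      constructor
      · by_contra hcon
        push Not at hcon
        have h3 := SG.ord_mono hm hcon
        have h4 : ord m - t < 2 * Real.pi / Real.log T := by linarith
        rw [lt_div_iff₀ hL] at h4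
        linarith
      · by_contra hcon
        push Not at hcon
        have h3 := SG.ord_mono (show 1 ≤ n + r by omega) hcon
        rw [ord_pr hL] at h3
        have h4 : 2 * Real.pi * (v + 1) / Real.log T ≤ 2 * Real.pi * pr T r n / Real.log T := by gcongr
        have h5 : 2 * Real.pi * (v + 1) / Real.log T ≤ ord m - t := by linarith
        rw [div_le_iff₀ hL] at h5
        linarith
  rw [Nat.card_Ioo] at a2
  have e3 : ((n + r - n - 1 : ℕ) : ℝ) = r - 1 := by
    have : n + r - n - 1 = r - 1 := by omega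
    rw [this, Nat.cast_sub hr, Nat.cast_one]
  rw [e3] at a2
  have a3 := (abs_le.1 (a1.trans g1)).1
  have a4 := le_abs_self (EG (Sh 1 (Gb (-1) s v)) T t)
  linarith

/-- **short blocks** -/
lemma short_pt (RH : RiemannHypothesis) {s v : ℝ} (hs : 1 ≤ s) (hv : 0 ≤ v) (r : ℕ) : ∀ᶠ T in atTop, ∀ t ∈ Wd T,
    ∀ n : ℕ, 1 ≤ n → t < ord n → ord n < t + 2 * Real.pi / Real.log T → pr T r n + 1 ≤ v →
    r - v - s - 1 ≤ |EG (Gb 1 s v) T t| := by
  obtain ⟨C0, T0, hC0, hT0, hxf⟩ := xf RH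
  have hs0 : 0 < s := by linarith
  obtain ⟨M, Λ, hB⟩ := Gb_Bd (σ := 1) hs0 hv
  have hs1 : 1 / s ≤ 1 := by
    rw [div_le_one hs0]
    exact hs
  have lim : ∀ A : ℝ, ∀ η : ℝ, 0 < η → ∀ᶠ T in atTop, A / Real.log T ≤ η := fun A η hη =>
    (Real.tendsto_log_atTop.const_div_atTop A).eventually_le_const hη
  filter_upwards [lim (C0 * (M + Λ)) 1 one_pos, lim (2 * Real.pi * v) (1 / (r + 1)) (by positivity),
    eventually_ge_atTop T0, eventually_ge_atTop 10] with T g1 g0 g2 g3 t ht n hn h1 h2 hpr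
  have hpi := Real.pi_pos
  have hT1 : 1 < T := by linarith
  have hL1 := log3 (by linarith : (3 : ℝ) ≤ T)
  have hL : 0 < Real.log T := by linarith
  unfold Wd at ht
  rw [mem_Icc] at ht
  obtain ⟨ht1, ht2⟩ := ht
  have a1 := hxf T g2 t ht1 ht2 _ _ _ _ hs1 hB
  rw [Gb_zero] at a1
  have hr1 : (1 : ℝ) / (r + 1) ≤ 1 := by
    rw [div_le_one (by positivity)]
    have : (0 : ℝ) ≤ r := Nat.cast_nonneg r
    linarith
  have hd0 : 0 ≤ 2 * Real.pi * v / Real.log T := by positivity
  have a2 := DS_cnt hv (f := fG (Gb 1 s v)) (fun x => maj hs hv) hL (by linarith : T ≤ t) (by linarith)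
  have h3 : ord (n + r) ≤ t + 2 * Real.pi * v / Real.log T := by
    rw [ord_pr hL]
    have h4 : 2 * Real.pi * (pr T r n + 1) / Real.log T ≤ 2 * Real.pi * v / Real.log T := by gcongr
    have h5 : 2 * Real.pi * (pr T r n + 1) / Real.log T = 2 * Real.pi * pr T r n / Real.log T + 2 * Real.pi / Real.log T := by
      ring
    linarith
  have h4 : n + r ≤ NZ (t + 2 * Real.pi * v / Real.log T) := (SG.ord_le_iff (by omega) _).1 h3
  have h5 : NZ t < n := by
    by_contra hcon
    push Not at hcon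
    have := (SG.ord_le_iff hn _).2 hcon
    linarith
  have h4' : (n : ℝ) + r ≤ NZ (t + 2 * Real.pi * v / Real.log T) := by exact_mod_cast h4
  have h5' : (NZ t : ℝ) + 1 ≤ n := by exact_mod_cast h5
  have h6 : (2 * Real.pi * v / Real.log T) ^ 2 / 2 ≤ 1 / (r + 1) := by
    have : (2 * Real.pi * v / Real.log T) ^ 2 ≤ 1 / (r + 1) := by
      calc (2 * Real.pi * v / Real.log T) ^ 2 = (2 * Real.pi * v / Real.log T) * (2 * Real.pi * v / Real.log T) := sq _
        _ ≤ (1 / (r + 1)) * 1 := mul_le_mul g0 (g0.trans hr1) hd0 (by positivity)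
        _ = _ := mul_one _
    have h7 : 0 ≤ (2 * Real.pi * v / Real.log T) ^ 2 := sq_nonneg _
    linarith
  have h7 : (r : ℝ) ≤ ((NZ (t + 2 * Real.pi * v / Real.log T) : ℝ) - NZ t) *
      (1 - (2 * Real.pi * v / Real.log T) ^ 2 / 2) := by
    have h8 : ((r : ℝ) + 1) * (1 - 1 / (r + 1)) ≤ ((NZ (t + 2 * Real.pi * v / Real.log T) : ℝ) - NZ t) *
      (1 - (2 * Real.pi * v / Real.log T) ^ 2 / 2) := by
      apply mul_le_mul (by linarith) (by linarith) (by linarith) (by
        have : (0 : ℝ) ≤ r := Nat.cast_nonneg r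
        linarith)
    have e : ((r : ℝ) + 1) * (1 - 1 / (r + 1)) = r := by field_simp; ring
    linarith
  have a3 := (abs_le.1 (a1.trans g1)).2
  have a4 := neg_abs_le (EG (Gb 1 s v) T t)
  linarith

/-- **the number of zeros in a short interval** -/
lemma unit_pt (RH : RiemannHypothesis) {s : ℝ} (hs : 1 ≤ s) : ∀ᶠ T in atTop, ∀ t ∈ Wd T,
    ((NZ (t + 2 * Real.pi / Real.log T) : ℝ) - NZ t) ≤ 2 * (s + 2 + |EG (Gb 1 s 1) T t|) := by
  obtain ⟨C0, T0, hC0, hT0, hxf⟩ := xf RH
  have hs0 : 0 < s := by linarith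
  obtain ⟨M, Λ, hB⟩ := Gb_Bd (σ := 1) hs0 zero_le_one
  have hs1 : 1 / s ≤ 1 := by
    rw [div_le_one hs0]
    exact hs
  have lim : ∀ A : ℝ, ∀ η : ℝ, 0 < η → ∀ᶠ T in atTop, A / Real.log T ≤ η := fun A η hη =>
    (Real.tendsto_log_atTop.const_div_atTop A).eventually_le_const hη
  filter_upwards [lim (C0 * (M + Λ)) 1 one_pos, lim (2 * Real.pi * 1) 1 one_pos,
    eventually_ge_atTop T0, eventually_ge_atTop 10] with T g1 g0 g2 g3 t ht
  have hpi := Real.pi_pos
  have hT1 : 1 < T := by linarith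
  have hL1 := log3 (by linarith : (3 : ℝ) ≤ T)
  have hL : 0 < Real.log T := by linarith
  unfold Wd at ht
  rw [mem_Icc] at ht
  obtain ⟨ht1, ht2⟩ := ht
  have a1 := hxf T g2 t ht1 ht2 _ _ _ _ hs1 hB
  rw [Gb_zero] at a1
  have hd0 : 0 ≤ 2 * Real.pi * 1 / Real.log T := by positivity
  have a2 := DS_cnt zero_le_one (f := fG (Gb 1 s 1)) (fun x => maj hs zero_le_one) hL (by linarith : T ≤ t) (by linarith)
  rw [mul_one] at a2 hd0 g0
  have hN : (0 : ℝ) ≤ (NZ (t + 2 * Real.pi / Real.log T) : ℝ) - NZ t := by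
    rw [sub_nonneg]
    exact_mod_cast SG.NZ_mono (by linarith)
  have h6 : (2 * Real.pi / Real.log T) ^ 2 / 2 ≤ 1 / 2 := by
    have : (2 * Real.pi / Real.log T) ^ 2 ≤ 1 := pow_le_one₀ hd0 g0
    linarith
  have h7 : ((NZ (t + 2 * Real.pi / Real.log T) : ℝ) - NZ t) * (1 / 2) ≤
      ((NZ (t + 2 * Real.pi / Real.log T) : ℝ) - NZ t) * (1 - (2 * Real.pi / Real.log T) ^ 2 / 2) :=
    mul_le_mul_of_nonneg_left (by linarith) hN
  have a3 := (abs_le.1 (a1.trans g1)).2
  have a4 := neg_abs_le (EG (Gb 1 s 1) T t)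
  linarith

/-- lower bounds for the block sums -/
lemma SS_lo {T : ℝ} (hT : 100 ≤ T) {r n : ℕ} (hn : 1 ≤ n) (h1 : T ≤ ord n) :
    (1 - 2 / Real.log T) * pr T r n ≤ SS r n := by
  have hpi := Real.pi_pos
  have hL : 0 < Real.log T := Real.log_pos (by linarith)
  have e1 : pr T r n = ∑ i ∈ Finset.range r, Real.log T * (ord (n + i + 1) - ord (n + i)) / (2 * Real.pi) := by
    unfold pr
    rw [← Finset.sum_div, ← Finset.mul_sum]
    congr 2
    have := Finset.sum_range_sub (fun i => ord (n + i)) r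
    simp only [add_zero] at this
    rw [← this]
    rfl
  rw [e1]
  unfold SS
  rw [Finset.mul_sum]
  refine Finset.sum_le_sum fun i hi => ?_
  have a1 : T ≤ ord (n + i) := h1.trans (SG.ord_mono hn (by omega))
  have a3 : 0 ≤ ord (n + i + 1) - ord (n + i) := by
    have := SG.ord_mono (show 1 ≤ n + i by omega) (show n + i ≤ n + i + 1 by omega)
    linarith
  have hp : 0 < ord (n + i) := by linarith
  have l1 : Real.log T ≤ Real.log (ord (n + i)) := Real.log_le_log (by linarith) a1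
  have l3 := log2pi
  have e2 : (1 - 2 / Real.log T) * (Real.log T * (ord (n + i + 1) - ord (n + i)) / (2 * Real.pi)) =
      (ord (n + i + 1) - ord (n + i)) / (2 * Real.pi) * (Real.log T - 2) := by
    field_simp
  rw [e2]
  unfold Pool.Agent.R320.CL.dl
  apply mul_le_mul_of_nonneg_left _ (by positivity)
  rw [Real.log_div hp.ne' (by positivity)]
  linarith

/-- **exceptional blocks in terms of distances** -/
lemma bad_pr {r : ℕ} {y : ℝ} (hy : 2 ≤ y) : ∀ᶠ T in atTop, ∀ n : ℕ, 1 ≤ n → T ≤ ord n →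
    ord n ≤ 2 * T - 1 → y ≤ |SS r n - r| → (r + y - 1 ≤ pr T r n ∨ (pr T r n ≤ r - y + 1 ∧ 0 ≤ r - y)) := by
  have lim : ∀ A : ℝ, ∀ η : ℝ, 0 < η → ∀ᶠ T in atTop, A / Real.log T ≤ η := fun A η hη =>
    (Real.tendsto_log_atTop.const_div_atTop A).eventually_le_const hη
  have hr0 : (0 : ℝ) ≤ r := Nat.cast_nonneg r
  filter_upwards [lim (2 * (r + y)) 1 one_pos, lim (4 * (r + 1)) 1 one_pos,
    Real.tendsto_log_atTop.eventually_ge_atTop (7 * (r + y)), Real.tendsto_log_atTop.eventually_ge_atTop 4,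
    eventually_ge_atTop 100] with T g1 g2 g3 g4 hT n hn h1 h2 hy2
  have hpi := Real.pi_pos
  have hpi4 := Real.pi_lt_d2
  have hL : 0 < Real.log T := by linarith
  have hp0 := pr_nonneg hL (r := r) hn
  have hSlo := SS_lo hT (r := r) hn h1
  rcases le_abs.1 hy2 with h3 | h3
  · left
    rcases le_or_gt (ord (n + r)) (2 * T) with h4 | h4
    · have h5 := (abs_le.1 (SS_pr hT (r := r) hn h1 h4)).2
      by_contra hcon
      push Not at hcon
      have h6 : 2 / Real.log T * pr T r n ≤ 2 / Real.log T * (r + y) :=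
        mul_le_mul_of_nonneg_left (by linarith) (by positivity)
      have h7 : 2 / Real.log T * (r + y) = 2 * (r + y) / Real.log T := by ring
      linarith
    · unfold pr
      rw [le_div_iff₀ (by positivity)]
      have h5 : 1 ≤ ord (n + r) - ord n := by linarith
      have h6 : Real.log T * 1 ≤ Real.log T * (ord (n + r) - ord n) := mul_le_mul_of_nonneg_left h5 hL.le
      have h7 : (r + y - 1) * (2 * Real.pi) ≤ (r + y) * 7 := by
        apply mul_le_mul (by linarith) (by linarith) (by positivity) (by linarith)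
      linarith
  · right
    have hS0 : 0 ≤ SS r n := by
      refine le_trans ?_ hSlo
      apply mul_nonneg _ hp0
      rw [sub_nonneg, div_le_one hL]
      linarith
    refine ⟨?_, by linarith⟩
    have h4 : SS r n ≤ r - y := by linarith
    have h6 : pr T r n ≤ 2 * r := by
      have h8 : (1 / 2 : ℝ) ≤ 1 - 2 / Real.log T := by
        have : 2 / Real.log T ≤ 1 / 2 := by
          rw [div_le_div_iff₀ hL (by norm_num)]
          linarith
        linarith
      have h9 : 1 / 2 * pr T r n ≤ (1 - 2 / Real.log T) * pr T r n := mul_le_mul_of_nonneg_right h8 hp0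
      linarith
    have h7 : 2 / Real.log T * pr T r n ≤ 1 := by
      refine (mul_le_mul_of_nonneg_left h6 (by positivity)).trans ?_
      refine le_trans ?_ g2
      rw [div_mul_eq_mul_div]
      apply div_le_div_of_nonneg_right _ hL.le
      linarith
    have h8 : (1 - 2 / Real.log T) * pr T r n = pr T r n - 2 / Real.log T * pr T r n := by ring
    linarith

end

end Pool.Agent.K6.H57.VL
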