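import Pool.Agent.K6.H57.VL.Vd

/-! # One block of zeros -/

set_option autoImplicit false

open MeasureTheory Set Filter Topology
open scoped ContDiff NNReal

namespace Pool.Agent.K6.H57.VL

open Pool.Agent.K6.H57.MX
open Pool.Agent.K6.H57.ML
open SG (ord NZ)
open Pool.Agent.R320.CL (SS dl)

noncomputable section

/-- **transfer to the zeros** -/
theorem palm2 {T : ℝ} (hT : 1 ≤ T) (hL : 0 < Real.log T) (B : Finset ℕ) (F : ℝ → ℝ) (hF : Nc T F)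
    (hF0 : ∀ t ∈ Wd T, 0 ≤ F t)
    (hB : ∀ n ∈ B, 1 ≤ n ∧ Ioo (ord n - 2 * Real.pi / Real.log T) (ord n) ⊆ Wd T ∧
      ∀ t ∈ Ioo (ord n - 2 * Real.pi / Real.log T) (ord n),
        ((NZ (t + 2 * Real.pi / Real.log T) : ℝ) - NZ t) ≤ F t) :
    (B.card : ℝ) * (2 * Real.pi / Real.log T) ≤ T * EX T F := by
  have hpi := Real.pi_pos
  have hT0 : 0 < T := by linarith
  obtain ⟨l, hl⟩ : ∃ l : ℝ, l = 2 * Real.pi / Real.log T := ⟨_, rfl⟩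
  have hl0 : 0 < l := by rw [hl]; positivity
  rw [← hl] at hB ⊢
  have nI : ∀ n ∈ B, Nc T ((Ioo (ord n - l) (ord n)).indicator fun _ => (1 : ℝ)) := fun n _ =>
    (Nc.const T 1).ind measurableSet_Ioo
  have key : EX T (fun t => ∑ n ∈ B, (Ioo (ord n - l) (ord n)).indicator (fun _ => (1 : ℝ)) t) ≤ EX T F := by
    apply EX_mono hT0 (Nc.sum _ nI) hF
    intro t ht
    by_cases htE : ∃ n ∈ B, t ∈ Ioo (ord n - l) (ord n)
    · obtain ⟨n0, hn0, htn0⟩ := htE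
      refine le_trans ?_ ((hB n0 hn0).2.2 t htn0)
      have e1 : ∑ n ∈ B, (Ioo (ord n - l) (ord n)).indicator (fun _ => (1 : ℝ)) t =
          ((B.filter fun n => t ∈ Ioo (ord n - l) (ord n)).card : ℝ) := by
        rw [Finset.card_filter, Nat.cast_sum]
        refine Finset.sum_congr rfl fun n _ => ?_
        by_cases h : t ∈ Ioo (ord n - l) (ord n)
        · rw [indicator_of_mem h, if_pos h]
          simp
        · rw [indicator_of_notMem h, if_neg h]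
          simp
      rw [e1]
      have h2 : (B.filter fun n => t ∈ Ioo (ord n - l) (ord n)) ⊆ Finset.Ioc (NZ t) (NZ (t + l)) := by
        intro n hn
        rw [Finset.mem_filter] at hn
        obtain ⟨hnB, hn1, hn2⟩ := hn
        have hn0 := (hB n hnB).1
        rw [Finset.mem_Ioc]
        constructor
        · by_contra hcon
          push Not at hcon
          have := (SG.ord_le_iff hn0 _).2 hcon
          linarith
        · rw [← SG.ord_le_iff hn0]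
          linarith
      have h3 := Finset.card_le_card h2
      rw [Nat.card_Ioc] at h3
      have h4 : ((NZ (t + l) - NZ t : ℕ) : ℝ) = (NZ (t + l) : ℝ) - NZ t :=
        Nat.cast_sub (SG.NZ_mono (by linarith))
      rw [← h4]
      exact_mod_cast h3
    · have h0 : ∑ n ∈ B, (Ioo (ord n - l) (ord n)).indicator (fun _ => (1 : ℝ)) t = 0 := by
        apply Finset.sum_eq_zero
        intro n hn
        rw [indicator_of_notMem]
        intro hcon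
        exact htE ⟨n, hn, hcon⟩
      rw [h0]
      exact hF0 t ht
  rw [EX_sum _ nI] at key
  have e1 : ∀ n ∈ B, EX T (fun t => (Ioo (ord n - l) (ord n)).indicator (fun _ => (1 : ℝ)) t) = l / T := by
    intro n hn
    have h1 := EX_ind (T := T) (S := Ioo (ord n - l) (ord n)) measurableSet_Ioo
    have h2 : EX T (fun t => (Ioo (ord n - l) (ord n)).indicator (fun _ => (1 : ℝ)) t) =
        Pb T (Ioo (ord n - l) (ord n)) := h1
    rw [h2]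
    unfold Pb
    rw [inter_eq_left.2 (hB n hn).2.1, measureReal_def, Real.volume_Ioo, ENNReal.toReal_ofReal (by linarith)]
    congr 1
    ring
  rw [Finset.sum_congr rfl e1, Finset.sum_const, nsmul_eq_mul] at key
  have e7 : (B.card : ℝ) * (l / T) = (B.card : ℝ) * l / T := by ring
  rw [e7, div_le_iff₀ hT0] at key
  linarith

lemma pow_ineq {x y : ℝ} (hx : 0 ≤ x) (hy : 0 ≤ y) (a : ℕ) :
    (1 + x) * y ^ (2 * a) ≤ 2 + 2 * y ^ (2 * (a + 1)) + x ^ (2 * (a + 1)) := by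
  have h1 : ∀ w : ℝ, 0 ≤ w → w ^ (2 * a) ≤ 1 + w ^ (2 * (a + 1)) ∧ w ^ (2 * a + 1) ≤ 1 + w ^ (2 * (a + 1)) := by
    intro w hw
    have h0 : 0 ≤ w ^ (2 * (a + 1)) := by positivity
    rcases le_total w 1 with h | h
    · have b1 : w ^ (2 * a) ≤ 1 := pow_le_one₀ hw h
      have b2 : w ^ (2 * a + 1) ≤ 1 := pow_le_one₀ hw h
      exact ⟨by linarith, by linarith⟩
    · have b1 : w ^ (2 * a) ≤ w ^ (2 * (a + 1)) := pow_le_pow_right₀ h (by omega)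
      have b2 : w ^ (2 * a + 1) ≤ w ^ (2 * (a + 1)) := pow_le_pow_right₀ h (by omega)
      exact ⟨by linarith, by linarith⟩
  have h2 : x * y ^ (2 * a) ≤ 1 + y ^ (2 * (a + 1)) + x ^ (2 * (a + 1)) := by
    have hx2 : 0 ≤ x ^ (2 * (a + 1)) := by positivity
    have hy2 : 0 ≤ y ^ (2 * (a + 1)) := by positivity
    rcases le_total x y with h | h
    · have h3 := (h1 y hy).2
      have h4 : x * y ^ (2 * a) ≤ y * y ^ (2 * a) := mul_le_mul_of_nonneg_right h (by positivity)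
      have e : y * y ^ (2 * a) = y ^ (2 * a + 1) := by ring
      linarith
    · have h3 := (h1 x hx).2
      have h4 : x * y ^ (2 * a) ≤ x * x ^ (2 * a) := by gcongr
      have e : x * x ^ (2 * a) = x ^ (2 * a + 1) := by ring
      linarith
  have h3 := (h1 y hy).1
  nlinarith

/-- the pointwise inequality -/
lemma psi_pt {c z θ q1 q2 q3 r1 r2 r3 : ℝ} (a : ℕ) (hc : 0 ≤ c) (hz : 4 ≤ z) (hθ : 0 < θ) (hq1 : 0 ≤ q1) (hq2 : 0 ≤ q2)
    (hq3 : 0 ≤ q3) (hr1 : 0 ≤ r1) (hr2 : 0 ≤ r2) (h : z ≤ q1 + r1 + 1 ∨ z ≤ q2 + r2 + 1) :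
    c * (1 + q3 + r3) ≤ c * ((2 / z) ^ (2 * a) * (4 + 2 * q1 ^ (2 * (a + 1)) + 2 * q2 ^ (2 * (a + 1)) +
      2 * q3 ^ (2 * (a + 1))) + θ + r3 ^ 2 / θ + 3 * θ * (1 + q3 ^ 2 + r3 ^ 2) +
      16 / (θ * z ^ 2) * (r1 ^ 2 + r2 ^ 2)) := by
  have hz0 : 0 < z := by linarith
  apply mul_le_mul_of_nonneg_left _ hc
  have p1 : 0 ≤ q1 ^ (2 * (a + 1)) := by positivity
  have p2 : 0 ≤ q2 ^ (2 * (a + 1)) := by positivity
  have p3 : 0 ≤ q3 ^ (2 * (a + 1)) := by positivity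
  have hr3' : r3 ≤ θ + r3 ^ 2 / θ := by
    rw [← sub_nonneg]
    have e : θ + r3 ^ 2 / θ - r3 = ((θ - r3 / 2) ^ 2 + 3 / 4 * r3 ^ 2) / θ := by
      field_simp
      ring
    rw [e]
    positivity
  have B : ∀ x : ℝ, 0 ≤ x → z / 4 ≤ x → 1 + q3 + r3 ≤ 3 * θ * (1 + q3 ^ 2 + r3 ^ 2) + 16 / (θ * z ^ 2) * x ^ 2 := by
    intro x hx hxz
    have h1 : 1 / θ ≤ 16 / (θ * z ^ 2) * x ^ 2 := by
      have h2 : (z / 4) ^ 2 ≤ x ^ 2 := pow_le_pow_left₀ (by positivity) hxz 2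
      have h3 : 16 / (θ * z ^ 2) * (z / 4) ^ 2 ≤ 16 / (θ * z ^ 2) * x ^ 2 := by gcongr
      have e : 16 / (θ * z ^ 2) * (z / 4) ^ 2 = 1 / θ := by field_simp; norm_num
      linarith
    have h2 : 1 + q3 + r3 ≤ θ * (1 + q3 + r3) ^ 2 + 1 / θ := by
      rw [← sub_nonneg]
      have e : θ * (1 + q3 + r3) ^ 2 + 1 / θ - (1 + q3 + r3) =
          ((θ * (1 + q3 + r3) - 1 / 2) ^ 2 + 3 / 4) / θ := by
        field_simp
        ring
      rw [e]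
      positivity
    have h3 : (1 + q3 + r3) ^ 2 ≤ 3 * (1 + q3 ^ 2 + r3 ^ 2) := by
      nlinarith [sq_nonneg (1 - q3), sq_nonneg (1 - r3), sq_nonneg (q3 - r3)]
    have h4 : θ * (1 + q3 + r3) ^ 2 ≤ θ * (3 * (1 + q3 ^ 2 + r3 ^ 2)) := mul_le_mul_of_nonneg_left h3 hθ.le
    linarith
  have A : ∀ x : ℝ, 0 ≤ x → z / 2 ≤ x → 1 + q3 + r3 ≤ (2 / z) ^ (2 * a) * (2 + 2 * x ^ (2 * (a + 1)) +
      q3 ^ (2 * (a + 1))) + r3 := by
    intro x hx hxz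
    have h1 := pow_ineq hq3 hx a
    have h2 : 1 ≤ (2 / z) ^ (2 * a) * x ^ (2 * a) := by
      rw [← mul_pow]
      apply one_le_pow₀
      rw [div_mul_eq_mul_div, le_div_iff₀ hz0]
      linarith
    have h3 : (1 + q3) * 1 ≤ (1 + q3) * ((2 / z) ^ (2 * a) * x ^ (2 * a)) :=
      mul_le_mul_of_nonneg_left h2 (by linarith)
    have h4 : (2 / z) ^ (2 * a) * ((1 + q3) * x ^ (2 * a)) ≤ (2 / z) ^ (2 * a) * (2 + 2 * x ^ (2 * (a + 1)) +
      q3 ^ (2 * (a + 1))) := mul_le_mul_of_nonneg_left h1 (by positivity)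
    linarith
  have c1 : 0 ≤ (2 / z) ^ (2 * a) := by positivity
  have c2 : 0 ≤ (2 / z) ^ (2 * a) * (4 + 2 * q1 ^ (2 * (a + 1)) + 2 * q2 ^ (2 * (a + 1)) + 2 * q3 ^ (2 * (a + 1))) := by
    positivity
  have c3 : 0 ≤ 3 * θ * (1 + q3 ^ 2 + r3 ^ 2) := by positivity
  have c4 : 0 ≤ 16 / (θ * z ^ 2) * r1 ^ 2 := by positivity
  have c5 : 0 ≤ 16 / (θ * z ^ 2) * r2 ^ 2 := by positivity
  have c6 : 0 ≤ r3 ^ 2 / θ := by positivity
  have m1 : (2 / z) ^ (2 * a) * (2 + 2 * q1 ^ (2 * (a + 1)) + q3 ^ (2 * (a + 1))) ≤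
      (2 / z) ^ (2 * a) * (4 + 2 * q1 ^ (2 * (a + 1)) + 2 * q2 ^ (2 * (a + 1)) + 2 * q3 ^ (2 * (a + 1))) :=
    mul_le_mul_of_nonneg_left (by linarith) c1
  have m2 : (2 / z) ^ (2 * a) * (2 + 2 * q2 ^ (2 * (a + 1)) + q3 ^ (2 * (a + 1))) ≤
      (2 / z) ^ (2 * a) * (4 + 2 * q1 ^ (2 * (a + 1)) + 2 * q2 ^ (2 * (a + 1)) + 2 * q3 ^ (2 * (a + 1))) :=
    mul_le_mul_of_nonneg_left (by linarith) c1
  rcases h with h | h
  · rcases le_or_gt (z / 2) q1 with h1 | h1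
    · have := A q1 hq1 h1
      linarith
    · have := B r1 hr1 (by linarith)
      linarith
  · rcases le_or_gt (z / 2) q2 with h1 | h1
    · have := A q2 hq2 h1
      linarith
    · have := B r2 hr2 (by linarith)
      linarith

/-- the bound for one test function -/
lemma EG_QG {κ M Λ : ℝ} {G : ℝ → ℂ} (h : Bd κ M Λ G) (hκ0 : 0 < κ) {η : ℝ} (hη : 0 < η) (hη1 : η ≤ 1) :
    ∀ᶠ T in atTop, ∀ t : ℝ, |EG G T t| ≤ QG ((1 + η) * κ) G T t + Rq T (WG T G) (XX κ T) t + 1 := by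
  obtain ⟨C, hC, h1⟩ := EG_near h hκ0
  have h2 := (Real.tendsto_log_atTop.const_div_atTop C).eventually_le_const (show (0 : ℝ) < 1 / 2 by norm_num)
  filter_upwards [PG_QG h hκ0 hη hη1 (show (0 : ℝ) < 1 / 2 by norm_num), h2, eventually_ge_atTop 10] with T g1 g2 g3 t
  have a1 := h1 T g3 t
  have a2 := g1 t
  have a3 := abs_sub_abs_le_abs_sub (EG G T t) (PG κ G T t)
  linarith

/-- **the dominating function** -/
theorem dom {κ η V z c : ℝ} {G1 G2 G3 : ℝ → ℂ} {M1 M2 M3 Λ1 Λ2 Λ3 : ℝ} (h1 : Bd κ M1 Λ1 G1) (h2 : Bd κ M2 Λ2 G2)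
    (h3 : Bd κ M3 Λ3 G3) (hκ0 : 0 < κ) (hκ : κ < 1 / 8) (hη : 0 < η) (hη1 : η ≤ 1) (a : ℕ)
    (ha : (1 + η) * κ * (a + 1 : ℕ) < 1) (hz : 4 ≤ z) (hc : 0 < c) (v1 : Vr G1 ≤ V) (v2 : Vr G2 ≤ V) (v3 : Vr G3 ≤ V) :
    ∀ᶠ T in atTop, ∃ F : ℝ → ℝ, Nc T F ∧ (∀ t ∈ Wd T, 0 ≤ F t) ∧
      (∀ t ∈ Wd T, (z ≤ |EG G1 T t| ∨ z ≤ |EG G2 T t|) → c * max 1 (|EG G3 T t|) ≤ F t) ∧
      EX T F ≤ 36 * c * (2 / z) ^ (2 * a) * ((a + 1).factorial * (2 * V + 1) ^ (a + 1)) := by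
  have hV0 : 0 ≤ V := (Vr_nonneg G1).trans v1
  obtain ⟨lam, hlam⟩ : ∃ lam : ℝ, lam = (1 + η) * κ := ⟨_, rfl⟩
  have hl0 : 0 ≤ lam := by rw [hlam]; positivity
  have hl2 : lam ≤ 2 * κ := by
    rw [hlam]
    nlinarith
  have hz0 : 0 < z := by linarith
  obtain ⟨P, hP⟩ : ∃ P : ℝ, P = (2 / z) ^ (2 * a) := ⟨_, rfl⟩
  have hP0 : 0 < P := by rw [hP]; positivity
  obtain ⟨Mm, hMm⟩ : ∃ Mm : ℝ, Mm = 2 * ((a + 1).factorial * (2 * V + 1) ^ (a + 1)) := ⟨_, rfl⟩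
  have hMm2 : 2 ≤ Mm := by
    rw [hMm]
    have f1 : (1 : ℝ) ≤ (a + 1).factorial := by exact_mod_cast Nat.one_le_iff_ne_zero.2 (Nat.factorial_ne_zero _)
    have f2 : (1 : ℝ) ≤ (2 * V + 1) ^ (a + 1) := one_le_pow₀ (by linarith)
    nlinarith
  obtain ⟨θ, hθ⟩ : ∃ θ : ℝ, θ = P / (20 * (V + 3)) := ⟨_, rfl⟩
  have hθ0 : 0 < θ := by rw [hθ]; positivity
  obtain ⟨d, hd⟩ : ∃ d : ℝ, d = min 1 (P / (4 * (1 / θ + 16 / (θ * z ^ 2) * 2))) := ⟨_, rfl⟩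
  have hd0 : 0 < d := by rw [hd]; positivity
  have hd1 : d ≤ 1 := by rw [hd]; exact min_le_left _ _
  have hd2 : d * (1 / θ + 16 / (θ * z ^ 2) * 2) ≤ P / 4 := by
    have h4 : d ≤ P / (4 * (1 / θ + 16 / (θ * z ^ 2) * 2)) := by rw [hd]; exact min_le_right _ _
    have h5 : 0 < 1 / θ + 16 / (θ * z ^ 2) * 2 := by positivity
    calc d * (1 / θ + 16 / (θ * z ^ 2) * 2) ≤ P / (4 * (1 / θ + 16 / (θ * z ^ 2) * 2)) *
          (1 / θ + 16 / (θ * z ^ 2) * 2) := mul_le_mul_of_nonneg_right h4 h5.le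
      _ = P / 4 := by field_simp
  have hκ4 : κ ≤ 1 / 4 := by linarith
  have ha' : lam * (a + 1 : ℕ) < 1 := by rw [hlam]; exact ha
  have ha1 : lam * (1 : ℕ) < 1 := by
    push_cast
    have : lam < 1 / 4 := by linarith
    linarith
  filter_upwards [EG_QG h1 hκ0 hη hη1, EG_QG h2 hκ0 hη hη1, EG_QG h3 hκ0 hη hη1,
    QG_mom h1 hκ0 hκ4 hl0 hl2 (a + 1) ha', QG_mom h2 hκ0 hκ4 hl0 hl2 (a + 1) ha',
    QG_mom h3 hκ0 hκ4 hl0 hl2 (a + 1) ha', QG_mom h3 hκ0 hκ4 hl0 hl2 1 ha1,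
    Rq_small h1 hκ0 hκ hd0, Rq_small h2 hκ0 hκ hd0, Rq_small h3 hκ0 hκ hd0, eventually_ge_atTop 10]
    with T e1 e2 e3 m1 m2 m3 m4 r1 r2 r3 hT
  have hT0 : 0 < T := by linarith
  have hT1 : (1 : ℝ) ≤ T := by linarith
  rw [← hlam] at e1 e2 e3
  obtain ⟨Q1, hQ1⟩ : ∃ Q1 : ℝ → ℝ, Q1 = fun t => QG lam G1 T t := ⟨_, rfl⟩
  obtain ⟨Q2, hQ2⟩ : ∃ Q2 : ℝ → ℝ, Q2 = fun t => QG lam G2 T t := ⟨_, rfl⟩
  obtain ⟨Q3, hQ3⟩ : ∃ Q3 : ℝ → ℝ, Q3 = fun t => QG lam G3 T t := ⟨_, rfl⟩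
  obtain ⟨R1, hR1⟩ : ∃ R1 : ℝ → ℝ, R1 = fun t => Rq T (WG T G1) (XX κ T) t := ⟨_, rfl⟩
  obtain ⟨R2, hR2⟩ : ∃ R2 : ℝ → ℝ, R2 = fun t => Rq T (WG T G2) (XX κ T) t := ⟨_, rfl⟩
  obtain ⟨R3, hR3⟩ : ∃ R3 : ℝ → ℝ, R3 = fun t => Rq T (WG T G3) (XX κ T) t := ⟨_, rfl⟩
  have cQ1 : Continuous Q1 := by rw [hQ1]; exact QG_cont _ _ _
  have cQ2 : Continuous Q2 := by rw [hQ2]; exact QG_cont _ _ _
  have cQ3 : Continuous Q3 := by rw [hQ3]; exact QG_cont _ _ _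
  have cR1 : Continuous R1 := by rw [hR1]; exact Rq_cont _ _ _
  have cR2 : Continuous R2 := by rw [hR2]; exact Rq_cont _ _ _
  have cR3 : Continuous R3 := by rw [hR3]; exact Rq_cont _ _ _
  have q1 : ∀ t, 0 ≤ Q1 t := fun t => by rw [hQ1]; exact QG_nonneg _ _ _ _
  have q2 : ∀ t, 0 ≤ Q2 t := fun t => by rw [hQ2]; exact QG_nonneg _ _ _ _
  have q3 : ∀ t, 0 ≤ Q3 t := fun t => by rw [hQ3]; exact QG_nonneg _ _ _ _
  have s1 : ∀ t, 0 ≤ R1 t := fun t => by rw [hR1]; exact Rq_nonneg _ _ _ _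
  have s2 : ∀ t, 0 ≤ R2 t := fun t => by rw [hR2]; exact Rq_nonneg _ _ _ _
  have s3 : ∀ t, 0 ≤ R3 t := fun t => by rw [hR3]; exact Rq_nonneg _ _ _ _
  have E1 : EX T (fun t => Q1 t ^ (2 * (a + 1))) ≤ Mm := by
    rw [hQ1, hMm]
    refine m1.trans ?_
    have := Vr_nonneg G1
    gcongr
  have E2 : EX T (fun t => Q2 t ^ (2 * (a + 1))) ≤ Mm := by
    rw [hQ2, hMm]
    refine m2.trans ?_
    have := Vr_nonneg G2
    gcongr
  have E3 : EX T (fun t => Q3 t ^ (2 * (a + 1))) ≤ Mm := by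
    rw [hQ3, hMm]
    refine m3.trans ?_
    have := Vr_nonneg G3
    gcongr
  have E4 : EX T (fun t => Q3 t ^ 2) ≤ 4 * V + 2 := by
    rw [hQ3]
    rw [mul_one, Nat.factorial_one, Nat.cast_one, one_mul, pow_one] at m4
    linarith
  have S1 : EX T (fun t => R1 t ^ 2) ≤ d := by rw [hR1]; exact r1
  have S2 : EX T (fun t => R2 t ^ 2) ≤ d := by rw [hR2]; exact r2
  have S3 : EX T (fun t => R3 t ^ 2) ≤ d := by rw [hR3]; exact r3
  have F3 : ∀ t, max 1 (|EG G3 T t|) ≤ 1 + Q3 t + R3 t := fun t => by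
    have h4 := e3 t
    apply max_le
    · linarith [q3 t, s3 t]
    · rw [hQ3, hR3]
      linarith
  -- the dominating function
  obtain ⟨F, hF⟩ : ∃ F : ℝ → ℝ, F = fun t => c * (P * (4 + 2 * Q1 t ^ (2 * (a + 1)) + 2 * Q2 t ^ (2 * (a + 1)) +
      2 * Q3 t ^ (2 * (a + 1))) + θ + R3 t ^ 2 / θ + 3 * θ * (1 + Q3 t ^ 2 + R3 t ^ 2) +
      16 / (θ * z ^ 2) * (R1 t ^ 2 + R2 t ^ 2)) := ⟨_, rfl⟩
  have cF : Continuous F := by rw [hF]; fun_prop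
  refine ⟨F, Nc.of_cont cF, fun t _ => ?_, fun t _ ht => ?_, ?_⟩
  · have := q1 t
    have := q2 t
    have := q3 t
    rw [hF]
    positivity
  · have h4 := psi_pt (c := c) (z := z) (θ := θ) (r3 := R3 t) a hc.le hz hθ0 (q1 t) (q2 t) (q3 t) (s1 t) (s2 t) (by
      rcases ht with ht | ht
      · left
        refine ht.trans ?_
        rw [hQ1, hR1]
        exact e1 t
      · right
        refine ht.trans ?_
        rw [hQ2, hR2]
        exact e2 t)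
    rw [← hP] at h4
    refine le_trans (mul_le_mul_of_nonneg_left (F3 t) hc.le) ?_
    rw [hF]
    exact h4
  · have nn : ∀ {f : ℝ → ℝ}, Continuous f → Nc T f := fun hf => Nc.of_cont hf
    obtain ⟨H, hH⟩ : ∃ H : ℝ → ℝ, H = fun t => (P * 4 + θ + 3 * θ) * 1 + (2 * P * Q1 t ^ (2 * (a + 1)) +
        (2 * P * Q2 t ^ (2 * (a + 1)) + (2 * P * Q3 t ^ (2 * (a + 1)) + ((1 / θ + 3 * θ) * R3 t ^ 2 +
        (3 * θ * Q3 t ^ 2 + (16 / (θ * z ^ 2) * R1 t ^ 2 + 16 / (θ * z ^ 2) * R2 t ^ 2)))))) := ⟨_, rfl⟩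
    have hFH : F = fun t => c * H t := by
      rw [hF, hH]
      funext t
      ring
    have b7 : EX T (fun t => 16 / (θ * z ^ 2) * R1 t ^ 2 + 16 / (θ * z ^ 2) * R2 t ^ 2) ≤
        16 / (θ * z ^ 2) * d + 16 / (θ * z ^ 2) * d := by
      rw [EX_add (nn (by fun_prop)) (nn (by fun_prop)), EX_cmul, EX_cmul]
      gcongr
    have b6 : EX T (fun t => 3 * θ * Q3 t ^ 2 + (16 / (θ * z ^ 2) * R1 t ^ 2 + 16 / (θ * z ^ 2) * R2 t ^ 2)) ≤
        3 * θ * (4 * V + 2) + (16 / (θ * z ^ 2) * d + 16 / (θ * z ^ 2) * d) := by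
      rw [EX_add (nn (by fun_prop)) (nn (by fun_prop)), EX_cmul]
      gcongr
    have b5 : EX T (fun t => (1 / θ + 3 * θ) * R3 t ^ 2 +
        (3 * θ * Q3 t ^ 2 + (16 / (θ * z ^ 2) * R1 t ^ 2 + 16 / (θ * z ^ 2) * R2 t ^ 2))) ≤
        (1 / θ + 3 * θ) * d + (3 * θ * (4 * V + 2) + (16 / (θ * z ^ 2) * d + 16 / (θ * z ^ 2) * d)) := by
      rw [EX_add (nn (by fun_prop)) (nn (by fun_prop)), EX_cmul]
      gcongr
    have b4 : EX T (fun t => 2 * P * Q3 t ^ (2 * (a + 1)) + ((1 / θ + 3 * θ) * R3 t ^ 2 +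
        (3 * θ * Q3 t ^ 2 + (16 / (θ * z ^ 2) * R1 t ^ 2 + 16 / (θ * z ^ 2) * R2 t ^ 2)))) ≤
        2 * P * Mm + ((1 / θ + 3 * θ) * d + (3 * θ * (4 * V + 2) + (16 / (θ * z ^ 2) * d + 16 / (θ * z ^ 2) * d))) := by
      rw [EX_add (nn (by fun_prop)) (nn (by fun_prop)), EX_cmul]
      gcongr
    have b3 : EX T (fun t => 2 * P * Q2 t ^ (2 * (a + 1)) + (2 * P * Q3 t ^ (2 * (a + 1)) + ((1 / θ + 3 * θ) * R3 t ^ 2 +
        (3 * θ * Q3 t ^ 2 + (16 / (θ * z ^ 2) * R1 t ^ 2 + 16 / (θ * z ^ 2) * R2 t ^ 2))))) ≤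
        2 * P * Mm + (2 * P * Mm + ((1 / θ + 3 * θ) * d + (3 * θ * (4 * V + 2) + (16 / (θ * z ^ 2) * d +
        16 / (θ * z ^ 2) * d)))) := by
      rw [EX_add (nn (by fun_prop)) (nn (by fun_prop)), EX_cmul]
      gcongr
    have b2 : EX T (fun t => 2 * P * Q1 t ^ (2 * (a + 1)) + (2 * P * Q2 t ^ (2 * (a + 1)) +
        (2 * P * Q3 t ^ (2 * (a + 1)) + ((1 / θ + 3 * θ) * R3 t ^ 2 +
        (3 * θ * Q3 t ^ 2 + (16 / (θ * z ^ 2) * R1 t ^ 2 + 16 / (θ * z ^ 2) * R2 t ^ 2)))))) ≤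
        2 * P * Mm + (2 * P * Mm + (2 * P * Mm + ((1 / θ + 3 * θ) * d + (3 * θ * (4 * V + 2) + (16 / (θ * z ^ 2) * d +
        16 / (θ * z ^ 2) * d))))) := by
      rw [EX_add (nn (by fun_prop)) (nn (by fun_prop)), EX_cmul]
      gcongr
    have b1 : EX T H ≤ (P * 4 + θ + 3 * θ) * 1 + (2 * P * Mm + (2 * P * Mm + (2 * P * Mm + ((1 / θ + 3 * θ) * d +
        (3 * θ * (4 * V + 2) + (16 / (θ * z ^ 2) * d + 16 / (θ * z ^ 2) * d)))))) := by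
      rw [hH, EX_add (nn (by fun_prop)) (nn (by fun_prop)), EX_cmul]
      apply add_le_add _ b2
      exact mul_le_mul_of_nonneg_left (EX_one_le hT1) (by positivity)
    have hθP : θ * (20 * (V + 3)) = P := by
      rw [hθ]
      field_simp
    have hθd : 3 * θ * d ≤ 3 * θ := mul_le_of_le_one_right (by positivity) hd1
    have e8 : (1 / θ + 3 * θ) * d + (16 / (θ * z ^ 2) * d + 16 / (θ * z ^ 2) * d) =
        d * (1 / θ + 16 / (θ * z ^ 2) * 2) + 3 * θ * d := by ring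
    have b0 : EX T H ≤ 9 * (P * Mm) := by
      refine b1.trans ?_
      have hθP' : 20 * (θ * V) + 60 * θ = P := by rw [← hθP]; ring
      have hθV : 0 ≤ θ * V := by positivity
      have h6 : P * 2 ≤ P * Mm := mul_le_mul_of_nonneg_left hMm2 hP0.le
      have e9 : (P * 4 + θ + 3 * θ) * 1 + (2 * P * Mm + (2 * P * Mm + (2 * P * Mm + ((1 / θ + 3 * θ) * d +
        (3 * θ * (4 * V + 2) + (16 / (θ * z ^ 2) * d + 16 / (θ * z ^ 2) * d)))))) =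
          4 * P + 10 * θ + 12 * (θ * V) + 6 * (P * Mm) +
          ((1 / θ + 3 * θ) * d + (16 / (θ * z ^ 2) * d + 16 / (θ * z ^ 2) * d)) := by ring
      rw [e9, e8]
      linarith
    rw [hFH, EX_cmul]
    refine (mul_le_mul_of_nonneg_left b0 hc.le).trans ?_
    rw [hMm, hP]
    have hpos : 0 ≤ c * (2 / z) ^ (2 * a) * ((a + 1).factorial * (2 * V + 1) ^ (a + 1)) := by positivity
    have e10 : c * (9 * ((2 / z) ^ (2 * a) * (2 * ((a + 1).factorial * (2 * V + 1) ^ (a + 1))))) =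
        18 * (c * (2 / z) ^ (2 * a) * ((a + 1).factorial * (2 * V + 1) ^ (a + 1))) := by ring
    rw [e10]
    linarith

end

end Pool.Agent.K6.H57.VL
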