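import Pool.Agent.K6.H57.VL.Ve
import Pool.Agent.K6.H57.MX.Bf

/-! # All zeros -/

set_option autoImplicit false

open MeasureTheory Set Filter Topology
open scoped ContDiff NNReal

namespace Pool.Agent.K6.H57.VL

open Pool.Agent.K6.H57.MX
open Pool.Agent.K6.H57.ML
open Pool.Agent.R320.JL (split_sum)
open SG (ord NZ)
open Pool.Agent.R320.CL (SS dl)

noncomputable section

/-- **one block** -/
theorem blkL (RH : RiemannHypothesis) {s y η V : ℝ} {r a : ℕ} (hs : 8 < s) (hy : s + 7 ≤ y) (hη : 0 < η)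
    (hη1 : η ≤ 1) (ha : (1 + η) * (a + 1 : ℕ) < s) (hr : 1 ≤ r)
    (v1 : Vr (Gb (-1) s (r + y - 2)) ≤ V) (v2 : Vr (Gb 1 s (max (r - y + 2) 0)) ≤ V) (v3 : Vr (Gb 1 s 1) ≤ V) :
    ∀ᶠ T in atTop, ∀ A A' : ℝ, T + Real.log T + 20 ≤ A → A' ≤ 2 * T - Real.log T - 20 →
      ∀ B : Finset ℕ, B ⊆ Finset.Ioc (NZ A) (NZ A') → (∀ n ∈ B, y ≤ |SS r n - r|) →
      (B.card : ℝ) ≤ 72 * (s + 3) * (2 / (y - s - 3)) ^ (2 * a) * ((a + 1).factorial * (2 * V + 1) ^ (a + 1)) *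
        (T * Real.log T) := by
  have hs0 : 0 < s := by linarith
  have hs1 : 1 ≤ s := by linarith
  have hr0 : (1 : ℝ) ≤ r := by exact_mod_cast hr
  have hw : 0 ≤ (r : ℝ) + y - 2 := by linarith
  have hw2 : 0 ≤ max ((r : ℝ) - y + 2) 0 := le_max_right _ _
  obtain ⟨M1, Λ1, b1⟩ := Gb_Bd (σ := -1) hs0 hw
  obtain ⟨M2, Λ2, b2⟩ := Gb_Bd (σ := 1) hs0 hw2
  obtain ⟨M3, Λ3, b3⟩ := Gb_Bd (σ := 1) hs0 zero_le_one
  have hκ0 : 0 < 1 / s := by positivity
  have hκ : 1 / s < 1 / 8 := one_div_lt_one_div_of_lt (by norm_num) hs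
  have ha' : (1 + η) * (1 / s) * (a + 1 : ℕ) < 1 := by
    rw [mul_one_div, div_mul_eq_mul_div, div_lt_one hs0]
    exact ha
  have v1' : Vr (Sh 1 (Gb (-1) s (r + y - 2))) ≤ V := by rw [Vr_Sh]; exact v1
  have hdom := dom (z := y - s - 3) (c := 2 * (s + 3)) (b1.sh 1) b2 b3 hκ0 hκ hη hη1 a ha' (by linarith)
    (by positivity) v1' v2 v3
  have hpi := Real.pi_pos
  have hpi3 := Real.pi_gt_three
  have hpi4 := Real.pi_lt_d2
  filter_upwards [hdom, long_pt RH hs1 hw, short_pt RH hs1 hw2 r, unit_pt RH hs1, bad_pr (r := r) (y := y) (by linarith),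
    Real.tendsto_log_atTop.eventually_ge_atTop 20, eventually_ge_atTop 100] with T ⟨F, nF, F0, hF1, hF2⟩ t1 t2 t3 t4 hL20
    hT100 A A' hA hA' B hBs hBb
  have hT0 : 0 < T := by linarith
  have hL : 0 < Real.log T := by linarith
  have hl2 : 2 * Real.pi / Real.log T ≤ 1 := by
    rw [div_le_one hL]
    linarith
  have hB : ∀ n ∈ B, 1 ≤ n ∧ Ioo (ord n - 2 * Real.pi / Real.log T) (ord n) ⊆ Wd T ∧
      ∀ t ∈ Ioo (ord n - 2 * Real.pi / Real.log T) (ord n),
        ((NZ (t + 2 * Real.pi / Real.log T) : ℝ) - NZ t) ≤ F t := by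
    intro n hn
    have hn1 := Finset.mem_Ioc.1 (hBs hn)
    have hn0 : 1 ≤ n := by omega
    have ho1 : A < ord n := by
      by_contra hcon
      push Not at hcon
      have := (SG.ord_le_iff hn0 _).1 hcon
      omega
    have ho2 : ord n ≤ A' := (SG.ord_le_iff hn0 _).2 hn1.2
    have hsub : Ioo (ord n - 2 * Real.pi / Real.log T) (ord n) ⊆ Wd T := by
      intro t ht
      unfold Wd
      rw [mem_Icc]
      constructor <;> linarith [ht.1, ht.2]
    refine ⟨hn0, hsub, fun t ht => ?_⟩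
    have htW := hsub ht
    have hbad := t4 n hn0 (by linarith) (by linarith) (hBb n hn)
    have hord2 : ord n < t + 2 * Real.pi / Real.log T := by linarith [ht.1]
    refine (t3 t htW).trans ?_
    have hlarge : y - s - 3 ≤ |EG (Sh 1 (Gb (-1) s (r + y - 2))) T t| ∨
        y - s - 3 ≤ |EG (Gb 1 s (max (r - y + 2) 0)) T t| := by
      rcases hbad with h | ⟨h, h0⟩
      · left
        have := t1 t htW n r hn0 hr ht.2 hord2 (by linarith)
        linarith
      · right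
        have e : max ((r : ℝ) - y + 2) 0 = r - y + 2 := max_eq_left (by linarith)
        have := t2 t htW n hn0 ht.2 hord2 (by rw [e]; linarith)
        rw [e] at this ⊢
        linarith
    refine le_trans ?_ (hF1 t htW hlarge)
    have m1 := le_max_left (1 : ℝ) |EG (Gb 1 s 1) T t|
    have m2 := le_max_right (1 : ℝ) |EG (Gb 1 s 1) T t|
    have m3 : (s + 2) * 1 ≤ (s + 2) * max 1 |EG (Gb 1 s 1) T t| := mul_le_mul_of_nonneg_left m1 (by linarith)
    linarith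
  have hP := palm2 (by linarith : (1 : ℝ) ≤ T) hL B F nF F0 hB
  obtain ⟨X, hX⟩ : ∃ X : ℝ, X = (2 / (y - s - 3)) ^ (2 * a) * ((a + 1).factorial * (2 * V + 1) ^ (a + 1)) := ⟨_, rfl⟩
  have hV0 : 0 ≤ V := (Vr_nonneg _).trans v3
  have hX0 : 0 ≤ X := by
    rw [hX]
    have : 0 < y - s - 3 := by linarith
    positivity
  have hF3 : EX T F ≤ 72 * (s + 3) * X := by
    refine hF2.trans (le_of_eq ?_)
    rw [hX]
    ring
  have e0 : 72 * (s + 3) * (2 / (y - s - 3)) ^ (2 * a) * ((a + 1).factorial * (2 * V + 1) ^ (a + 1)) *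
      (T * Real.log T) = 72 * (s + 3) * X * (T * Real.log T) := by
    rw [hX]
    ring
  rw [e0]
  have hP2 : (B.card : ℝ) * (2 * Real.pi / Real.log T) ≤ T * (72 * (s + 3) * X) :=
    hP.trans (mul_le_mul_of_nonneg_left hF3 hT0.le)
  have e2 : (B.card : ℝ) * (2 * Real.pi / Real.log T) = (B.card : ℝ) * (2 * Real.pi) / Real.log T := by ring
  rw [e2, div_le_iff₀ hL] at hP2
  have e3 : (B.card : ℝ) * 1 ≤ (B.card : ℝ) * (2 * Real.pi) := by
    apply mul_le_mul_of_nonneg_left _ (Nat.cast_nonneg _)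
    linarith
  have e4 : T * (72 * (s + 3) * X) * Real.log T = 72 * (s + 3) * X * (T * Real.log T) := by ring
  linarith

/-- **from blocks to all zeros** -/
theorem allX2 : ∃ C : ℝ, 0 < C ∧ ∀ δ : ℝ, 0 < δ → ∀ g : ℕ → ℂ, (∀ n, ‖g n‖ ≤ 1) →
    (∀ᶠ T : ℝ in atTop, ∀ A A' : ℝ, T + Real.log T + 20 ≤ A → A' ≤ 2 * T - Real.log T - 20 →
      ‖∑ n ∈ Finset.Ioc (NZ A) (NZ A'), g n‖ ≤ δ * (T * Real.log T)) →
    ∀ᶠ N : ℕ in atTop, ‖∑ n ∈ Finset.Icc 1 N, g n‖ ≤ C * δ * N := by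
  obtain ⟨C2, hC2, N1, hN1, hNx⟩ := Pool.Agent.R320.VQ.N_x
  obtain ⟨C3, T3, hC3, hT3, hup⟩ := LG.GapAux.NZ_up
  obtain ⟨C4, hC4, hunit⟩ := Pool.Agent.Y743.NC.unit_count
  refine ⟨5 * C2, by positivity, fun δ hδ g hgn hblkG => ?_⟩
  obtain ⟨K, hK⟩ : ∃ K : ℕ, (2 / 3 : ℝ) ^ K < δ / C3 :=
    exists_pow_lt_of_lt_one (by positivity) (by norm_num)
  obtain ⟨ρ, hρ⟩ : ∃ ρ : ℝ, ρ = (2 / 3 : ℝ) ^ K := ⟨_, rfl⟩
  rw [← hρ] at hK
  have hρ0 : 0 < ρ := by rw [hρ]; positivity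
  have hρ1 : ρ ≤ 1 := by rw [hρ]; exact pow_le_one₀ (by norm_num) (by norm_num)
  have hKρ : C3 * ρ ≤ δ := by
    rw [lt_div_iff₀ hC3] at hK
    linarith
  obtain ⟨T1, hT1⟩ := hblkG.exists_forall_of_atTop
  have ev2 : ∀ᶠ y : ℝ in atTop, Real.log y + 20 ≤ y / 15 ∧ 2 * T3 ≤ y ∧ 3 ≤ y ∧ 5 / 3 * T1 ≤ y := by
    have h2 := Real.isLittleO_log_id_atTop.bound (c := 1 / 30) (by positivity)
    filter_upwards [h2, eventually_ge_atTop 600, eventually_ge_atTop (2 * T3), eventually_ge_atTop (5 / 3 * T1)]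
      with x hx hx1 hx2 hx3
    rw [id, Real.norm_of_nonneg (Real.log_nonneg (by linarith)), Real.norm_of_nonneg (by linarith)] at hx
    exact ⟨by linarith, hx2, by linarith, hx3⟩
  obtain ⟨y0, hy0⟩ := ev2.exists_forall_of_atTop
  have ev3 : ∀ᶠ x : ℝ in atTop, y0 ≤ ρ * x := by
    filter_upwards [eventually_ge_atTop (y0 / ρ)] with x hx
    rw [div_le_iff₀ hρ0] at hx
    linarith
  have ev4 : ∀ᶠ x : ℝ in atTop, C4 * Real.log x ≤ δ * (x * Real.log x) := by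
    filter_upwards [eventually_ge_atTop (max 1 (C4 / δ))] with x hx
    have hx1 : 1 ≤ x := (le_max_left _ _).trans hx
    have hx2 : C4 / δ ≤ x := (le_max_right _ _).trans hx
    rw [div_le_iff₀ hδ] at hx2
    have hl := Real.log_nonneg hx1
    calc C4 * Real.log x ≤ (x * δ) * Real.log x := mul_le_mul_of_nonneg_right hx2 hl
      _ = _ := by ring
  have ev := SG.ord_tendsto.eventually (ev3.and (ev4.and (eventually_ge_atTop 10)))
  filter_upwards [ev, eventually_ge_atTop N1, eventually_ge_atTop 1] with N hN2 hNN1 hN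
  have hNr : (1 : ℝ) ≤ N := by exact_mod_cast hN
  obtain ⟨hxN, hNx'⟩ := hNx N hNN1
  obtain ⟨g2, ⟨g3, g4⟩⟩ := hN2
  obtain ⟨x, hx⟩ : ∃ x : ℝ, x = ord N := ⟨_, rfl⟩
  rw [← hx] at hxN hNx' g2 g3 g4
  have hcard : ∀ S : Finset ℕ, ‖∑ n ∈ S, g n‖ ≤ S.card := by
    intro S
    refine (norm_sum_le _ _).trans ((Finset.sum_le_sum fun n _ => hgn n).trans (le_of_eq ?_))
    rw [Finset.sum_const, nsmul_eq_mul, mul_one]
  have hlx : 0 < Real.log x := Real.log_pos (by linarith)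
  have hx0 : 0 < x := by linarith
  -- the index range
  have hNZ : N ≤ NZ x := by rw [hx]; exact SG.le_NZ_ord hN
  have e1 : ∑ n ∈ Finset.Icc 1 N, g n = ∑ n ∈ Finset.Icc 1 (NZ x), g n - ∑ n ∈ Finset.Ioc N (NZ x), g n := by
    have e2 : Finset.Icc 1 (NZ x) = Finset.Icc 1 N ∪ Finset.Ioc N (NZ x) := by
      ext n
      simp only [Finset.mem_union, Finset.mem_Icc, Finset.mem_Ioc]
      omega
    rw [e2, Finset.sum_union, add_sub_cancel_right]
    rw [Finset.disjoint_left]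
    intro n h4 h5
    rw [Finset.mem_Icc] at h4
    rw [Finset.mem_Ioc] at h5
    omega
  have hend : ‖∑ n ∈ Finset.Ioc N (NZ x), g n‖ ≤ δ * C2 * N := by
    refine (hcard _).trans ?_
    rw [Nat.card_Ioc]
    have a1 : NZ (x - 1) < N := by
      by_contra hcon
      push Not at hcon
      have := (SG.ord_le_iff hN _).mpr hcon
      linarith
    have a2 := hunit (x - 1) (by linarith)
    rw [sub_add_cancel] at a2
    have a3 : ((NZ x - N : ℕ) : ℝ) ≤ C4 * Real.log x := by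
      rw [Nat.cast_sub hNZ]
      have a4 : (NZ (x - 1) : ℝ) ≤ N := by exact_mod_cast a1.le
      have a5 : Real.log (x - 1) ≤ Real.log x := Real.log_le_log (by linarith) (by linarith)
      have a6 : C4 * Real.log (x - 1) ≤ C4 * Real.log x := mul_le_mul_of_nonneg_left a5 hC4.le
      linarith
    calc ((NZ x - N : ℕ) : ℝ) ≤ C4 * Real.log x := a3
      _ ≤ δ * (x * Real.log x) := g3
      _ ≤ δ * (C2 * N) := by gcongr
      _ = _ := by ring
  -- the low part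
  have hρx := hy0 (ρ * x) g2
  have hlow : ‖∑ n ∈ Finset.Icc 1 (NZ (ρ * x)), g n‖ ≤ δ * C2 * N := by
    refine (hcard _).trans ?_
    rw [Nat.card_Icc, Nat.add_sub_cancel]
    have a1 := hup (ρ * x / 2) (by linarith [hρx.2.1])
    have e2 : 2 * (ρ * x / 2) = ρ * x := by ring
    rw [e2] at a1
    have a2 : ρ * x / 2 * Real.log (ρ * x / 2) ≤ ρ * (x * Real.log x) := by
      have b1 : Real.log (ρ * x / 2) ≤ Real.log x := Real.log_le_log (by positivity) (by nlinarith)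
      calc ρ * x / 2 * Real.log (ρ * x / 2) ≤ ρ * x / 2 * Real.log x := by gcongr
        _ ≤ ρ * x * Real.log x := by
          apply mul_le_mul_of_nonneg_right _ hlx.le
          have : 0 < ρ * x := by positivity
          linarith
        _ = _ := by ring
    calc (NZ (ρ * x) : ℝ) ≤ C3 * (ρ * (x * Real.log x)) := by
          refine a1.trans ?_
          exact mul_le_mul_of_nonneg_left a2 hC3.le
      _ ≤ C3 * (ρ * (C2 * N)) := by gcongr
      _ = (C3 * ρ) * (C2 * N) := by ring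
      _ ≤ δ * (C2 * N) := by gcongr
      _ = _ := by ring
  -- the blocks
  have hblk : ∀ j ∈ Finset.range K, ‖∑ n ∈ Finset.Ioc (NZ (2 / 3 * ((2 / 3) ^ j * x)))
      (NZ ((2 / 3) ^ j * x)), g n‖ ≤ (2 / 3 : ℝ) ^ j * (δ * (x * Real.log x)) := by
    intro j hj
    rw [Finset.mem_range] at hj
    obtain ⟨q, hq⟩ : ∃ q : ℝ, q = (2 / 3) ^ j := ⟨_, rfl⟩
    have hq0 : 0 < q := by rw [hq]; positivity
    obtain ⟨y, hy⟩ : ∃ y : ℝ, y = q * x := ⟨_, rfl⟩
    rw [← hq, ← hy]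
    have hρy : ρ * x ≤ y := by
      rw [hy, hρ, hq]
      apply mul_le_mul_of_nonneg_right _ hx0.le
      exact pow_le_pow_of_le_one (by norm_num) (by norm_num) hj.le
    have hyx : y ≤ x := by
      rw [hy, hq]
      have : (2 / 3 : ℝ) ^ j ≤ 1 := pow_le_one₀ (by norm_num) (by norm_num)
      nlinarith
    obtain ⟨k1, k2, k3, k4⟩ := hy0 y (g2.trans hρy)
    have hT1' : 1 ≤ 3 / 5 * y := by linarith
    have hlogT : Real.log (3 / 5 * y) ≤ Real.log x := Real.log_le_log (by linarith) (by linarith)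
    have h4 := hT1 (3 / 5 * y) (by linarith) (2 / 3 * y) y (by
      have : Real.log (3 / 5 * y) ≤ Real.log y := Real.log_le_log (by linarith) (by linarith)
      linarith) (by
      have : Real.log (3 / 5 * y) ≤ Real.log y := Real.log_le_log (by linarith) (by linarith)
      linarith)
    refine h4.trans ?_
    have h5 : 3 / 5 * y * Real.log (3 / 5 * y) ≤ y * Real.log x := by
      apply mul_le_mul (by linarith) hlogT (Real.log_nonneg hT1') (by linarith)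
    calc δ * (3 / 5 * y * Real.log (3 / 5 * y)) ≤ δ * (y * Real.log x) := by gcongr
      _ = _ := by rw [hy]; ring
  have hgeo : ∑ j ∈ Finset.range K, (2 / 3 : ℝ) ^ j ≤ 3 := by
    have := geom_sum_eq (show (2 / 3 : ℝ) ≠ 1 by norm_num) K
    rw [this]
    have h0 : (0 : ℝ) < (2 / 3 : ℝ) ^ K := by positivity
    have e : ((2 / 3 : ℝ) ^ K - 1) / (2 / 3 - 1) = 3 * (1 - (2 / 3 : ℝ) ^ K) := by ring
    rw [e]
    linarith
  have hblks : ‖∑ k ∈ Finset.range K, ∑ n ∈ Finset.Ioc (NZ (2 / 3 * ((2 / 3) ^ k * x)))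
      (NZ ((2 / 3) ^ k * x)), g n‖ ≤ 3 * (δ * C2 * N) := by
    refine (norm_sum_le _ _).trans ((Finset.sum_le_sum hblk).trans ?_)
    rw [← Finset.sum_mul]
    have h5 : 0 ≤ δ * (x * Real.log x) := by positivity
    calc (∑ j ∈ Finset.range K, (2 / 3 : ℝ) ^ j) * (δ * (x * Real.log x)) ≤ 3 * (δ * (x * Real.log x)) := by gcongr
      _ ≤ 3 * (δ * (C2 * N)) := by gcongr
      _ = _ := by ring
  have e2 := split_sum g x hx0.le K
  rw [← hρ] at e2
  rw [e1, e2]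
  refine (norm_sub_le _ _).trans ?_
  have h6 := norm_add_le (∑ n ∈ Finset.Icc 1 (NZ (ρ * x)), g n)
    (∑ k ∈ Finset.range K, ∑ n ∈ Finset.Ioc (NZ (2 / 3 * ((2 / 3) ^ k * x))) (NZ ((2 / 3) ^ k * x)), g n)
  have e7 : 5 * C2 * δ * N = 5 * (δ * C2 * N) := by ring
  rw [e7]
  linarith

open Classical in
/-- **all zeros** -/
theorem allL (RH : RiemannHypothesis) : ∃ C : ℝ, 0 < C ∧ ∀ {s y η V : ℝ} {r a : ℕ}, 8 < s → s + 7 ≤ y → 0 < η →
    η ≤ 1 → (1 + η) * (a + 1 : ℕ) < s → 1 ≤ r → Vr (Gb (-1) s (r + y - 2)) ≤ V →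
    Vr (Gb 1 s (max (r - y + 2) 0)) ≤ V → Vr (Gb 1 s 1) ≤ V →
    ∀ᶠ N : ℕ in atTop, (((Finset.Icc 1 N).filter fun n => y ≤ |SS r n - r|).card : ℝ) ≤
      C * ((s + 3) * (2 / (y - s - 3)) ^ (2 * a) * ((a + 1).factorial * (2 * V + 1) ^ (a + 1))) * N := by
  obtain ⟨C, hC, h⟩ := allX2
  refine ⟨72 * C, by positivity, fun {s y η V r a} hs hy hη hη1 ha hr v1 v2 v3 => ?_⟩
  have hb := blkL RH hs hy hη hη1 ha hr v1 v2 v3
  have hV0 : 0 ≤ V := (Vr_nonneg _).trans v3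
  obtain ⟨X, hX⟩ : ∃ X : ℝ, X = (s + 3) * (2 / (y - s - 3)) ^ (2 * a) *
    ((a + 1).factorial * (2 * V + 1) ^ (a + 1)) := ⟨_, rfl⟩
  have hX0 : 0 < X := by
    rw [hX]
    have : 0 < y - s - 3 := by linarith
    have h2 : 0 < s + 3 := by linarith
    positivity
  have h1 := h (72 * X) (by positivity) (fun n => if y ≤ |SS r n - r| then 1 else 0) (fun n => by
    split_ifs <;> simp) (by
    filter_upwards [hb] with T hT A A' hA hA'
    have h1 := hT A A' hA hA' ((Finset.Ioc (NZ A) (NZ A')).filter fun n => y ≤ |SS r n - r|)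
      (Finset.filter_subset _ _) (fun n hn => (Finset.mem_filter.1 hn).2)
    rw [← Finset.sum_filter, Finset.sum_const, nsmul_eq_mul, mul_one, Complex.norm_natCast]
    refine h1.trans (le_of_eq ?_)
    rw [hX]
    ring)
  filter_upwards [h1] with N hN
  rw [← Finset.sum_filter, Finset.sum_const, nsmul_eq_mul, mul_one, Complex.norm_natCast] at hN
  refine hN.trans (le_of_eq ?_)
  rw [← hX]
  ring

end

end Pool.Agent.K6.H57.VL
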