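import Pool.Agent.K6.H57.VL.Vf

/-! # Large deviations of the block sums -/

set_option autoImplicit false

open MeasureTheory Set Filter Topology
open scoped ContDiff NNReal

namespace Pool.Agent.K6.H57.VL

open Pool.Agent.K6.H57.MX
open Pool.Agent.K6.H57.ML
open SG (ord NZ)
open Pool.Agent.R320.CL (SS dl)

noncomputable section

/-- the numerical estimate -/
lemma numeric {C0 η : ℝ} (hC0 : 0 < C0) (hη : 0 < η) (hη8 : η ≤ 1 / 8) : ∃ C : ℝ, 1 ≤ C ∧ ∀ l y : ℝ, 1 / 2 ≤ l →
    C * l ≤ y → 60 / η ≤ y ∧ ∀ b : ℕ, (1 - η) ^ 2 * y - 1 ≤ b → 1 ≤ b → (b : ℝ) ≤ y →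
      C0 * (((1 - η) * y + 3) * (2 / (η * y - 3)) ^ (2 * (b - 1)) * (b.factorial * (110 * l) ^ b)) ≤
        Real.exp (-((1 - 5 * η) * y * Real.log (y / l))) := by
  obtain ⟨K, hK⟩ : ∃ K : ℝ, K = 1760 / η ^ 2 := ⟨_, rfl⟩
  have hη2 : η ^ 2 ≤ 1 := by nlinarith
  have hK1 : 1 ≤ K := by
    rw [hK, le_div_iff₀ (by positivity)]
    linarith
  have hK0 : 0 < K := by linarith
  have hlK : 0 ≤ Real.log K := Real.log_nonneg hK1
  have ev : ∀ᶠ y : ℝ in atTop, Real.log (4 * C0) + 3 * Real.log y ≤ η * y := by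
    have h2 := Real.isLittleO_log_id_atTop.bound (c := η / 6) (by positivity)
    filter_upwards [h2, eventually_ge_atTop 1, eventually_ge_atTop (2 * Real.log (4 * C0) / η)] with x hx hx1 hx2
    rw [id, Real.norm_of_nonneg (Real.log_nonneg hx1), Real.norm_of_nonneg (by linarith)] at hx
    rw [div_le_iff₀ hη] at hx2
    linarith
  obtain ⟨y0, hy0⟩ := ev.exists_forall_of_atTop
  obtain ⟨C, hC⟩ : ∃ C : ℝ, C = max (max (Real.exp (Real.log K / η)) (Real.exp 1)) (2 * max y0 (60 / η)) := ⟨_, rfl⟩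
  have c1 : Real.exp (Real.log K / η) ≤ C := by rw [hC]; exact (le_max_left _ _).trans (le_max_left _ _)
  have c2 : Real.exp 1 ≤ C := by rw [hC]; exact (le_max_right _ _).trans (le_max_left _ _)
  have c3 : 2 * max y0 (60 / η) ≤ C := by rw [hC]; exact le_max_right _ _
  have hC1 : 1 ≤ C := by
    have := Real.add_one_le_exp (1 : ℝ)
    linarith
  refine ⟨C, hC1, fun l y hl hy => ?_⟩
  have hl0 : 0 < l := by linarith
  have hymax : max y0 (60 / η) ≤ y := by
    have h1 : C * (1 / 2) ≤ C * l := mul_le_mul_of_nonneg_left hl (by linarith)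
    linarith
  have hy60 : 60 / η ≤ y := (le_max_right _ _).trans hymax
  have hyy0 := hy0 y ((le_max_left _ _).trans hymax)
  refine ⟨hy60, fun b hb hb1 hby => ?_⟩
  have hηy : 60 ≤ η * y := by
    rw [div_le_iff₀ hη] at hy60
    linarith
  have hy1 : 60 ≤ y := by nlinarith
  have hyp : 0 < y := by linarith
  obtain ⟨w, hw⟩ : ∃ w : ℝ, w = y / l := ⟨_, rfl⟩
  have hCw : C ≤ w := by
    rw [hw, le_div_iff₀ hl0]
    exact hy
  have hw0 : 0 < w := by linarith
  have hlw : Real.log K ≤ η * Real.log w := by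
    have h1 : Real.log K / η ≤ Real.log w := by
      rw [Real.le_log_iff_exp_le hw0]
      exact c1.trans hCw
    rw [div_le_iff₀ hη] at h1
    linarith
  have hlw1 : 1 ≤ Real.log w := by
    rw [Real.le_log_iff_exp_le hw0]
    exact c2.trans hCw
  rw [← hw]
  have hz : η * y / 2 ≤ η * y - 3 := by linarith
  have hz0 : 0 < η * y - 3 := by linarith
  -- factors
  have f1 : (1 - η) * y + 3 ≤ 2 * y := by nlinarith
  have f2 : (2 / (η * y - 3)) ^ (2 * (b - 1)) ≤ (16 / (η * y) ^ 2) ^ (b - 1) := by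
    rw [pow_mul]
    apply pow_le_pow_left₀ (sq_nonneg _)
    have : 2 / (η * y - 3) ≤ 4 / (η * y) := by
      rw [div_le_div_iff₀ hz0 (by positivity)]
      linarith
    calc (2 / (η * y - 3)) ^ 2 ≤ (4 / (η * y)) ^ 2 := pow_le_pow_left₀ (by positivity) this 2
      _ = _ := by
          rw [div_pow]
          norm_num
  have f3 : (b.factorial : ℝ) ≤ y ^ b := by
    have : (b.factorial : ℝ) ≤ (b : ℝ) ^ b := by exact_mod_cast Nat.factorial_le_pow b
    exact this.trans (pow_le_pow_left₀ (Nat.cast_nonneg _) hby b)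
  have e1 : (16 / (η * y) ^ 2) ^ (b - 1) * (y ^ b * (110 * l) ^ b) = (η * y) ^ 2 / 16 * (K / w) ^ b := by
    have e2 : (16 / (η * y) ^ 2) ^ b = (16 / (η * y) ^ 2) ^ (b - 1) * (16 / (η * y) ^ 2) := by
      rw [← pow_succ]
      congr 1
      omega
    have e3 : (K / w) ^ b = (16 / (η * y) ^ 2) ^ b * (y ^ b * (110 * l) ^ b) := by
      rw [← mul_pow, ← mul_pow]
      congr 1
      rw [hK, hw]
      field_simp
      norm_num
    rw [e3, e2]
    field_simp
  have hX : ((1 - η) * y + 3) * (2 / (η * y - 3)) ^ (2 * (b - 1)) * (b.factorial * (110 * l) ^ b) ≤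
      4 * y ^ 3 * (K / w) ^ b := by
    have g0 : 0 ≤ (K / w) ^ b := by positivity
    calc ((1 - η) * y + 3) * (2 / (η * y - 3)) ^ (2 * (b - 1)) * (b.factorial * (110 * l) ^ b) ≤
        (2 * y) * (16 / (η * y) ^ 2) ^ (b - 1) * (y ^ b * (110 * l) ^ b) := by gcongr
      _ = (2 * y) * ((η * y) ^ 2 / 16 * (K / w) ^ b) := by rw [← e1]; ring
      _ = (1 / 8 * η ^ 2) * y ^ 3 * (K / w) ^ b := by ring
      _ ≤ 4 * y ^ 3 * (K / w) ^ b := by
          gcongr
          linarith
  have hP : (K / w) ^ b = Real.exp (-(b * (Real.log w - Real.log K))) := by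
    have : K / w = Real.exp (-(Real.log w - Real.log K)) := by
      rw [neg_sub, Real.exp_sub, Real.exp_log hK0, Real.exp_log hw0]
    rw [this, ← Real.exp_nat_mul]
    congr 1
    ring
  have hy3 : C0 * (4 * y ^ 3) ≤ Real.exp (η * y) := by
    rw [← Real.exp_log (show 0 < C0 * (4 * y ^ 3) by positivity)]
    apply Real.exp_le_exp.2
    have : C0 * (4 * y ^ 3) = (4 * C0) * y ^ 3 := by ring
    rw [this, Real.log_mul (by positivity) (by positivity), Real.log_pow]
    push_cast
    linarith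
  calc C0 * (((1 - η) * y + 3) * (2 / (η * y - 3)) ^ (2 * (b - 1)) * (b.factorial * (110 * l) ^ b)) ≤
      C0 * (4 * y ^ 3 * (K / w) ^ b) := mul_le_mul_of_nonneg_left hX hC0.le
    _ = C0 * (4 * y ^ 3) * Real.exp (-(b * (Real.log w - Real.log K))) := by rw [hP]; ring
    _ ≤ Real.exp (η * y) * Real.exp (-(b * (Real.log w - Real.log K))) :=
        mul_le_mul_of_nonneg_right hy3 (Real.exp_pos _).le
    _ = Real.exp (η * y + -(b * (Real.log w - Real.log K))) := (Real.exp_add _ _).symm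
    _ ≤ _ := by
        apply Real.exp_le_exp.2
        have h1 : (1 - η) * Real.log w ≤ Real.log w - Real.log K := by linarith
        have h0 : 0 ≤ (1 - η) * Real.log w := by
          have : 0 ≤ 1 - η := by linarith
          positivity
        have hb0 : 0 ≤ (1 - η) ^ 2 * y - 1 := by nlinarith
        have h2 : ((1 - η) ^ 2 * y - 1) * ((1 - η) * Real.log w) ≤ b * (Real.log w - Real.log K) :=
          mul_le_mul hb h1 h0 (Nat.cast_nonneg _)
        have h3 : η * y ≤ η * y * Real.log w := le_mul_of_one_le_right (by positivity) hlw1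
        have h4 : (1 - 3 * η) ≤ (1 - η) ^ 3 := by nlinarith [sq_nonneg η, mul_pos hη hη]
        have h5 : (1 - 3 * η) * (y * Real.log w) ≤ (1 - η) ^ 3 * (y * Real.log w) := by gcongr
        have h6 : (1 - η) * Real.log w ≤ η * y * Real.log w := by
          apply mul_le_mul_of_nonneg_right _ (by linarith)
          linarith
        have e4 : ((1 - η) ^ 2 * y - 1) * ((1 - η) * Real.log w) = (1 - η) ^ 3 * (y * Real.log w) -
            (1 - η) * Real.log w := by ring
        rw [e4] at h2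
        have e5 : (1 - 5 * η) * y * Real.log w = (1 - 3 * η) * (y * Real.log w) - 2 * (η * y * Real.log w) := by ring
        rw [e5]
        linarith

open Classical in
/-- **large deviations of the block sums** -/
theorem fin (RH : RiemannHypothesis) {ε : ℝ} (hε : 0 < ε) : ∃ C : ℝ, 1 ≤ C ∧ ∀ r : ℕ, 1 ≤ r → ∀ y : ℝ,
    C * Real.log (2 * r) ≤ y → ∀ᶠ N : ℕ in atTop,
      (((Finset.Icc 1 N).filter fun n => y ≤ |SS r n - r|).card : ℝ) ≤
        Real.exp (-((1 - ε) * y * Real.log (y / Real.log (2 * r)))) * N := by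
  obtain ⟨C0, hC0, hall⟩ := allL RH
  obtain ⟨e, he⟩ : ∃ e : ℝ, e = min ε 1 := ⟨_, rfl⟩
  have he0 : 0 < e := by rw [he]; positivity
  have he1 : e ≤ 1 := by rw [he]; exact min_le_right _ _
  have heε : e ≤ ε := by rw [he]; exact min_le_left _ _
  obtain ⟨η, hη⟩ : ∃ η : ℝ, η = e / 8 := ⟨_, rfl⟩
  have hη0 : 0 < η := by rw [hη]; positivity
  have hη8 : η ≤ 1 / 8 := by rw [hη]; linarith
  obtain ⟨C, hC1, hnum⟩ := numeric hC0 hη0 hη8
  refine ⟨C, hC1, fun r hr y hy => ?_⟩
  have hr1 : (1 : ℝ) ≤ r := by exact_mod_cast hr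
  obtain ⟨l, hl⟩ : ∃ l : ℝ, l = Real.log (2 * r) := ⟨_, rfl⟩
  rw [← hl] at hy ⊢
  have hl12 : 1 / 2 ≤ l := by
    have h1 : Real.log 2 ≤ l := by
      rw [hl]
      exact Real.log_le_log (by norm_num) (by linarith)
    have := Real.log_two_gt_d9
    linarith
  obtain ⟨hy60, hb⟩ := hnum l y hl12 hy
  have hηy : 60 ≤ η * y := by
    rw [div_le_iff₀ hη0] at hy60
    linarith
  have hy1 : 60 ≤ y := by nlinarith
  obtain ⟨b, hbd⟩ : ∃ b : ℕ, b = ⌊(1 - η) ^ 2 * y⌋₊ := ⟨_, rfl⟩
  have hpos : 0 ≤ (1 - η) ^ 2 * y := by positivity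
  have hb1 : (b : ℝ) ≤ (1 - η) ^ 2 * y := by rw [hbd]; exact Nat.floor_le hpos
  have hb2 : (1 - η) ^ 2 * y - 1 ≤ b := by
    have := Nat.lt_floor_add_one ((1 - η) ^ 2 * y)
    rw [← hbd] at this
    linarith
  have hsq : (1 - η) ^ 2 ≤ 1 := by nlinarith
  have hb3 : (b : ℝ) ≤ y := by nlinarith
  have hb4 : 1 ≤ b := by
    have : (1 : ℝ) ≤ b := by nlinarith
    exact_mod_cast this
  have hs8 : 8 < (1 - η) * y := by nlinarith
  have hab : b - 1 + 1 = b := by omega
  -- the variance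
  obtain ⟨V, hV⟩ : ∃ V : ℝ, V = 22 + 4 * Real.log ((r + y) / ((1 - η) * y)) := ⟨_, rfl⟩
  have hsm : (1 - η) * y ≤ r + y := by nlinarith
  have v1 : Vr (Gb (-1) ((1 - η) * y) (r + y - 2)) ≤ V := by
    rw [hV]
    exact Vr_Gb (by norm_num) (by linarith) hsm (by linarith) (by linarith)
  have v2 : Vr (Gb 1 ((1 - η) * y) (max (r - y + 2) 0)) ≤ V := by
    rw [hV]
    exact Vr_Gb (by norm_num) (by linarith) hsm (le_max_right _ _) (max_le (by linarith) (by linarith))
  have v3 : Vr (Gb 1 ((1 - η) * y) 1) ≤ V := by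
    rw [hV]
    exact Vr_Gb (by norm_num) (by linarith) hsm zero_le_one (by linarith)
  have h1 := hall (s := (1 - η) * y) (y := y) (η := η) (V := V) (r := r) (a := b - 1) hs8 (by linarith) hη0
    (by linarith) (by
      rw [hab]
      have h2 : (1 + η) * b ≤ (1 + η) * ((1 - η) ^ 2 * y) := mul_le_mul_of_nonneg_left hb1 (by linarith)
      have h3 : (1 + η) * ((1 - η) ^ 2 * y) = (1 - η) * y - η ^ 2 * ((1 - η) * y) := by ring
      have h4 : 0 < η ^ 2 * ((1 - η) * y) := by
        have : 0 < (1 - η) * y := by linarith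
        positivity
      linarith) hr v1 v2 v3
  filter_upwards [h1] with N hN
  refine hN.trans ?_
  apply mul_le_mul_of_nonneg_right _ (Nat.cast_nonneg N)
  rw [hab]
  have hVl : 2 * V + 1 ≤ 110 * l := by
    have h2 : (r + y) / ((1 - η) * y) ≤ 4 * r := by
      rw [div_le_iff₀ (by linarith)]
      have : (1 / 2 : ℝ) * y ≤ (1 - η) * y := mul_le_mul_of_nonneg_right (by linarith) (by linarith)
      have h3 : 4 * r * (1 / 2 * y) ≤ 4 * r * ((1 - η) * y) := mul_le_mul_of_nonneg_left this (by linarith)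
      nlinarith
    have h3 : Real.log ((r + y) / ((1 - η) * y)) ≤ Real.log (4 * r) := Real.log_le_log (by
      apply div_pos (by linarith) (by linarith)) h2
    have h4 : Real.log (4 * r) = Real.log 2 + l := by
      rw [hl, ← Real.log_mul (by norm_num) (by linarith)]
      congr 1
      ring
    have h5 := Real.log_two_lt_d9
    rw [hV]
    linarith
  have hV0 : 0 ≤ V := (Vr_nonneg _).trans v3
  have e1 : y - (1 - η) * y - 3 = η * y - 3 := by ring
  rw [e1]
  have hz0 : 0 < η * y - 3 := by linarith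
  have hs3 : 0 < (1 - η) * y + 3 := by linarith
  calc C0 * (((1 - η) * y + 3) * (2 / (η * y - 3)) ^ (2 * (b - 1)) * (b.factorial * (2 * V + 1) ^ b)) ≤
      C0 * (((1 - η) * y + 3) * (2 / (η * y - 3)) ^ (2 * (b - 1)) * (b.factorial * (110 * l) ^ b)) := by gcongr
    _ ≤ Real.exp (-((1 - 5 * η) * y * Real.log (y / l))) := hb b hb2 hb4 hb3
    _ ≤ _ := by
        apply Real.exp_le_exp.2
        apply neg_le_neg
        have hlog : 0 ≤ Real.log (y / l) := by
          apply Real.log_nonneg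
          rw [le_div_iff₀ (by linarith)]
          have : 1 * l ≤ C * l := mul_le_mul_of_nonneg_right hC1 (by linarith)
          linarith
        apply mul_le_mul_of_nonneg_right _ hlog
        apply mul_le_mul_of_nonneg_right _ (by linarith)
        rw [hη]
        linarith

end

end Pool.Agent.K6.H57.VL
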